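import Mathlib

/-! MP_3149b0: common definitions for the multiplicity bounds. -/

set_option autoImplicit false

namespace Pool.Agent.MZ54

open Polynomial

/-- the complex version of an integer polynomial -/
noncomputable abbrev cpx (f : ℤ[X]) : ℂ[X] := f.map (Int.castRingHom ℂ)

/-- the degree of an algebraic integer (natural degree of its minimal polynomial over `ℤ`) -/
noncomputable def Dz (x : ℂ) : ℕ := (minpoly ℤ x).natDegree

/-- the Mahler measure of an algebraic integer -/
noncomputable def Mz (x : ℂ) : ℝ := (cpx (minpoly ℤ x)).mahlerMeasure

end Pool.Agent.MZ54
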