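import Pool.Agent.DOB.Aux48
import Pool.Agent.MZ54.Base

namespace Pool.Agent.MZ54

open Polynomial

/-- **auxiliary polynomial**: instance of `DOB48.aux48` -/
theorem aux_exists (f : ℤ[X]) (hf : f.Monic) (hirr : Irreducible f) (k : ℕ) (hk : 5 ≤ k)
    (hM : (cpx f).mahlerMeasure ^ ((8 * k + 3) * (8 * k)) ≤ 3) :
    ∃ A : ℤ[X], A ≠ 0 ∧ A.natDegree < (8 * k + 3) * (8 * k) * f.natDegree ∧
      (∀ j, |A.coeff j| ≤ (((8 * k + 3) * (8 * k) * f.natDegree : ℕ) : ℤ) ^ 2 - 1) ∧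
      f ^ (8 * k) ∣ A := by
  have hD : 1 ≤ f.natDegree := by
    rcases Nat.eq_zero_or_pos f.natDegree with h | h
    · exact absurd (hf.natDegree_eq_zero.mp h) hirr.ne_one
    · exact h
  set D := f.natDegree with hDdef
  set u := 8 * k with hu
  set N := (u + 3) * u * D with hN
  have hu40 : 40 ≤ u := by omega
  have hN1 : 1720 ≤ N := by
    calc 1720 = (40 + 3) * 40 * 1 := by norm_num
      _ ≤ (u + 3) * u * D := by gcongr
  set H := N ^ 2 - 1 with hH
  have hN2 : 1 ≤ N ^ 2 := Nat.one_le_pow _ _ (by omega)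
  have hH1 : H + 1 = N ^ 2 := by omega
  have hHpos : 1 ≤ H := by
    have : 2 ≤ N ^ 2 := by nlinarith
    omega
  set Q := 7 * H * N ^ u with hQ
  have hNu : 1 ≤ N ^ u := Nat.one_le_pow _ _ (by omega)
  have hQ1 : 1 ≤ Q := by
    have : 0 < Q := by positivity
    exact this
  have h1 : (2 * Q) ^ (2 * u * D) < (H + 1) ^ N := by
    have h2 : (2 * Q) ^ 2 < N ^ (2 * (u + 3)) := by
      have hHN : H < N ^ 2 := by omega
      calc (2 * Q) ^ 2 = 196 * H ^ 2 * (N ^ u) ^ 2 := by rw [hQ]; ring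
        _ < 196 * (N ^ 2) ^ 2 * (N ^ u) ^ 2 := by gcongr
        _ ≤ N * (N ^ 2) ^ 2 * (N ^ u) ^ 2 := by gcongr; omega
        _ ≤ N ^ 2 * (N ^ 2) ^ 2 * (N ^ u) ^ 2 := by
            gcongr
            exact Nat.le_self_pow (by norm_num) N
        _ = N ^ (2 * (u + 3)) := by ring
    calc (2 * Q) ^ (2 * u * D) = ((2 * Q) ^ 2) ^ (u * D) := by rw [← pow_mul]; congr 1; ring
      _ < (N ^ (2 * (u + 3))) ^ (u * D) :=
          Nat.pow_lt_pow_left h2 (by positivity)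
      _ = (H + 1) ^ N := by
          rw [hH1, ← pow_mul, ← pow_mul]
          congr 1
          rw [hN]
          ring
  have h2 : (2 * ((H : ℝ) * (N : ℝ) ^ u / Q)) ^ D * (DOB48.toC f).mahlerMeasure ^ N < 1 := by
    have hq : 2 * ((H : ℝ) * (N : ℝ) ^ u / Q) = 2 / 7 := by
      have hH' : (0 : ℝ) < H := by exact_mod_cast hHpos
      have hN' : (0 : ℝ) < (N : ℝ) ^ u := by exact_mod_cast hNu
      rw [hQ]
      push_cast
      field_simp
    rw [hq]
    have hMD : (DOB48.toC f).mahlerMeasure ^ N = ((cpx f).mahlerMeasure ^ ((u + 3) * u)) ^ D := by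
      rw [hN, ← pow_mul]
    rw [hMD, ← mul_pow]
    have hM0 : 0 ≤ (cpx f).mahlerMeasure ^ ((u + 3) * u) := by
      have := mahlerMeasure_nonneg (cpx f)
      positivity
    apply pow_lt_one₀ (by positivity) _ (by omega)
    linarith
  obtain ⟨A, hA0, hAd, hAc, hAf⟩ := DOB48.aux48 hf hirr hQ1 h1 h2
  refine ⟨A, hA0, hAd, ?_, hAf⟩
  intro j
  refine (hAc j).trans (le_of_eq ?_)
  rw [hH, Nat.cast_sub hN2]
  push_cast
  ring

end Pool.Agent.MZ54
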