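import Mathlib

/-! MP_3149b0: enough primes between `k` and `C k^2 log k`. -/

namespace Pool.Agent.MZ54

/-- enough primes above `k` and up to `C k^2 log k` -/
theorem cheb : ∃ C : ℝ, 0 < C ∧ ∀ k : ℕ, 5 ≤ k → ∃ s : ℕ, (s : ℝ) ≤ C * (k : ℝ) ^ 2 * Real.log k ∧
    (8 * k + 3) * (8 * k) + k ^ 2 ≤ ((Finset.Icc 1 s).filter (fun p ↦ p.Prime ∧ k < p)).card := by
  refine ⟨1001, by norm_num, ?_⟩
  intro k hk
  have hk' : (5 : ℝ) ≤ k := by exact_mod_cast hk
  have hk0 : (0 : ℝ) < k := by linarith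
  have hlk : 1 ≤ Real.log k := by
    rw [Real.le_log_iff_exp_le hk0]
    have := Real.exp_one_lt_d9
    linarith
  have hlk2 : Real.log k ≤ k := by
    have := Real.log_le_sub_one_of_pos hk0
    linarith
  set s : ℕ := ⌈1000 * (k : ℝ) ^ 2 * Real.log k⌉₊ with hs
  have hs1 : 1000 * (k : ℝ) ^ 2 * Real.log k ≤ s := Nat.le_ceil _
  have hk2 : (1 : ℝ) ≤ (k : ℝ) ^ 2 := one_le_pow₀ (by linarith)
  have hk2l : (1 : ℝ) ≤ (k : ℝ) ^ 2 * Real.log k := by nlinarith
  have hs2 : (s : ℝ) ≤ 1001 * (k : ℝ) ^ 2 * Real.log k := by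
    have := (Nat.ceil_lt_add_one (a := 1000 * (k : ℝ) ^ 2 * Real.log k) (by positivity)).le
    rw [← hs] at this
    linarith
  refine ⟨s, hs2, ?_⟩
  have hs1' : (1 : ℝ) ≤ s := by nlinarith
  -- s + 1 ≤ k ^ 8
  have hs8 : (s : ℝ) + 1 ≤ (k : ℝ) ^ 8 := by
    have h5 : (3125 : ℝ) ≤ (k : ℝ) ^ 5 := by
      calc (3125 : ℝ) = 5 ^ 5 := by norm_num
        _ ≤ (k : ℝ) ^ 5 := by gcongr
    have h3 : (s : ℝ) + 1 ≤ 1002 * (k : ℝ) ^ 3 := by
      have h6 : (k : ℝ) ^ 2 * Real.log k ≤ (k : ℝ) ^ 2 * k := by gcongr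
      have h7 : (k : ℝ) ^ 2 * k = (k : ℝ) ^ 3 := by ring
      have h8 : (1 : ℝ) ≤ (k : ℝ) ^ 3 := one_le_pow₀ (by linarith)
      nlinarith
    have h9 : (0 : ℝ) < (k : ℝ) ^ 3 := by positivity
    calc (s : ℝ) + 1 ≤ 1002 * (k : ℝ) ^ 3 := h3
      _ ≤ (k : ℝ) ^ 5 * (k : ℝ) ^ 3 := by gcongr; linarith
      _ = (k : ℝ) ^ 8 := by ring
  have hlog8 : Real.log ((s : ℝ) + 1) ≤ 8 * Real.log k := by
    have h1 : Real.log ((s : ℝ) + 1) ≤ Real.log ((k : ℝ) ^ 8) :=
      Real.log_le_log (by linarith) hs8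
    rw [Real.log_pow] at h1
    exact_mod_cast h1
  have hlogs : Real.log (s : ℝ) ≤ 8 * Real.log k :=
    (Real.log_le_log (by linarith) (by linarith)).trans hlog8
  have h1 := Chebyshev.psi_ge s
  have h2 := Chebyshev.psi_le_primeCounting_mul_log s
  have hl2 := Real.log_two_gt_d9
  have hpi : (70 : ℝ) * (k : ℝ) ^ 2 ≤ (Nat.primeCounting s : ℝ) := by
    have h3 : (Nat.primeCounting s : ℝ) * Real.log s ≤ (Nat.primeCounting s : ℝ) * (8 * Real.log k) :=
      mul_le_mul_of_nonneg_left hlogs (by positivity)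
    have h4 : 1000 * (k : ℝ) ^ 2 * Real.log k * 0.69 - 8 * Real.log k
        ≤ (Nat.primeCounting s : ℝ) * (8 * Real.log k) := by
      have h5 : 1000 * (k : ℝ) ^ 2 * Real.log k * 0.69 ≤ (s : ℝ) * Real.log 2 := by
        apply mul_le_mul hs1 (by linarith) (by norm_num) (by positivity)
      linarith
    have h6 : (690 * (k : ℝ) ^ 2 - 8) * Real.log k
        ≤ ((Nat.primeCounting s : ℝ) * 8) * Real.log k := by
      calc (690 * (k : ℝ) ^ 2 - 8) * Real.log k
          = 1000 * (k : ℝ) ^ 2 * Real.log k * 0.69 - 8 * Real.log k := by ring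
        _ ≤ _ := h4
        _ = _ := by ring
    have h7 : 690 * (k : ℝ) ^ 2 - 8 ≤ (Nat.primeCounting s : ℝ) * 8 :=
      le_of_mul_le_mul_right h6 (by linarith)
    nlinarith
  -- count
  have hcard : Nat.primeCounting s ≤ ((Finset.Icc 1 s).filter (fun p ↦ p.Prime ∧ k < p)).card + k := by
    have h3 : Nat.primeCounting s = ((Finset.range (s + 1)).filter Nat.Prime).card := by
      rw [Nat.primeCounting, Nat.primeCounting', Nat.count_eq_card_filter_range]
    rw [h3]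
    have h4 : (Finset.range (s + 1)).filter Nat.Prime
        ⊆ (Finset.Icc 1 s).filter (fun p ↦ p.Prime ∧ k < p) ∪ Finset.Icc 1 k := by
      intro p hp
      rw [Finset.mem_filter, Finset.mem_range] at hp
      rw [Finset.mem_union, Finset.mem_filter, Finset.mem_Icc, Finset.mem_Icc]
      have := hp.2.one_lt
      by_cases hkp : k < p
      · left
        exact ⟨⟨by omega, by omega⟩, hp.2, hkp⟩
      · right
        exact ⟨by omega, by omega⟩
    calc ((Finset.range (s + 1)).filter Nat.Prime).card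
        ≤ ((Finset.Icc 1 s).filter (fun p ↦ p.Prime ∧ k < p) ∪ Finset.Icc 1 k).card :=
          Finset.card_le_card h4
      _ ≤ ((Finset.Icc 1 s).filter (fun p ↦ p.Prime ∧ k < p)).card + (Finset.Icc 1 k).card :=
          Finset.card_union_le _ _
      _ = _ := by rw [Nat.card_Icc]; rfl
  have hpiN : 70 * k ^ 2 ≤ Nat.primeCounting s := by exact_mod_cast hpi
  have hfin : (8 * k + 3) * (8 * k) + k ^ 2 + k ≤ 70 * k ^ 2 := by nlinarith
  omega

end Pool.Agent.MZ54
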