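import Mathlib

/-! MP_3149b0: conjugates of powers, and the number of 'bad' exponents. -/

namespace Pool.Agent.MZ54

open Polynomial IntermediateField

/-- the conjugates of `x ^ n` are the `n`-th powers of the conjugates of `x` -/
theorem conj_pow (x : ℂ) (hx : IsIntegral ℚ x) (n : ℕ) :
    (fun z : ℂ => z ^ n) '' (minpoly ℚ x).rootSet ℂ = (minpoly ℚ (x ^ n)).rootSet ℂ := by
  have : FiniteDimensional ℚ ℚ⟮x⟯ := adjoin.finiteDimensional hx
  have h1 := Algebra.IsAlgebraic.range_eval_eq_rootSet_minpoly (F := ℚ) (K := ℚ⟮x⟯) ℂ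
    (AdjoinSimple.gen ℚ x)
  have h2 := Algebra.IsAlgebraic.range_eval_eq_rootSet_minpoly (F := ℚ) (K := ℚ⟮x⟯) ℂ
    (AdjoinSimple.gen ℚ x ^ n)
  have e1 : minpoly ℚ (AdjoinSimple.gen ℚ x) = minpoly ℚ x := minpoly_gen ℚ x
  have e2 : minpoly ℚ (AdjoinSimple.gen ℚ x ^ n) = minpoly ℚ (x ^ n) := by
    have h3 := minpoly.algebraMap_eq (A := ℚ) (algebraMap ℚ⟮x⟯ ℂ).injective
      (AdjoinSimple.gen ℚ x ^ n)
    rw [← h3, map_pow, AdjoinSimple.algebraMap_gen]
  rw [← e1, ← h1, ← e2, ← h2]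
  ext y
  constructor
  · rintro ⟨z, ⟨φ, rfl⟩, rfl⟩
    exact ⟨φ, by simp⟩
  · rintro ⟨φ, rfl⟩
    exact ⟨φ (AdjoinSimple.gen ℚ x), ⟨φ, rfl⟩, by simp⟩

theorem card_conj (x : ℂ) (hx : IsIntegral ℚ x) :
    ((minpoly ℚ x).rootSet ℂ).ncard = (minpoly ℚ x).natDegree := by
  rw [Set.ncard_eq_toFinset_card']
  have h1 := card_rootSet_eq_natDegree (K := ℂ) ((minpoly.irreducible hx).separable)
    (IsAlgClosed.splits _)
  rw [← h1, Set.toFinset_card]

/-- a non injective power map at least halves the degree -/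
theorem deg_half (x : ℂ) (hx : IsIntegral ℚ x) (n : ℕ) {a a' : ℂ}
    (ha : a ∈ (minpoly ℚ x).rootSet ℂ) (ha' : a' ∈ (minpoly ℚ x).rootSet ℂ) (hne : a ≠ a')
    (he : a ^ n = a' ^ n) :
    2 * (minpoly ℚ (x ^ n)).natDegree ≤ (minpoly ℚ x).natDegree := by
  have : FiniteDimensional ℚ ℚ⟮x⟯ := adjoin.finiteDimensional hx
  have hdvd : (minpoly ℚ (x ^ n)).natDegree ∣ (minpoly ℚ x).natDegree := by
    have h3 := minpoly.algebraMap_eq (A := ℚ) (algebraMap ℚ⟮x⟯ ℂ).injective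
      (AdjoinSimple.gen ℚ x ^ n)
    rw [map_pow, AdjoinSimple.algebraMap_gen] at h3
    rw [h3, ← adjoin.finrank hx]
    exact minpoly.degree_dvd (Algebra.IsIntegral.isIntegral _)
  have hpos : 0 < (minpoly ℚ x).natDegree := minpoly.natDegree_pos hx
  have hfin : ((minpoly ℚ x).rootSet ℂ).Finite := rootSet_finite _ _
  have hlt : (minpoly ℚ (x ^ n)).natDegree < (minpoly ℚ x).natDegree := by
    rw [← card_conj x hx, ← card_conj (x ^ n) (hx.pow n), ← conj_pow x hx n]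
    rcases (Set.ncard_image_le (f := fun z : ℂ => z ^ n) hfin).lt_or_eq with h | h
    · exact h
    · exfalso
      have hinj := Set.injOn_of_ncard_image_eq h hfin
      exact hne (hinj ha ha' he)
  obtain ⟨c, hc⟩ := hdvd
  rcases c with _ | _ | c
  · omega
  · omega
  · have : (minpoly ℚ (x ^ n)).natDegree * 2 ≤ (minpoly ℚ (x ^ n)).natDegree * (c + 1 + 1) :=
      Nat.mul_le_mul_left _ (by omega)
    omega

/-- exponent `p` is bad for `x`: two conjugates have the same `p`-th power -/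
def Bad (x : ℂ) (p : ℕ) : Prop :=
  ∃ a ∈ (minpoly ℚ x).rootSet ℂ, ∃ a' ∈ (minpoly ℚ x).rootSet ℂ, a ≠ a' ∧ a ^ p = a' ^ p

theorem bad_card (x : ℂ) (hx : IsIntegral ℚ x) (B : Finset ℕ) (hB : ∀ p ∈ B, p.Prime)
    (hbad : ∀ p ∈ B, Bad x p) :
    2 ^ B.card * (minpoly ℚ (x ^ (∏ p ∈ B, p))).natDegree ≤ (minpoly ℚ x).natDegree := by
  classical
  induction B using Finset.induction_on with
  | empty => simp
  | insert p B hp ih =>
    have ih' := ih (fun q hq => hB q (Finset.mem_insert_of_mem hq))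
      (fun q hq => hbad q (Finset.mem_insert_of_mem hq))
    set m := ∏ q ∈ B, q with hm
    rw [Finset.prod_insert hp, Finset.card_insert_of_notMem hp]
    have hpp : p.Prime := hB p (Finset.mem_insert_self _ _)
    have hcop : Nat.Coprime m p := by
      rw [hm]
      apply Nat.Coprime.prod_left
      intro q hq
      have hqq : q.Prime := hB q (Finset.mem_insert_of_mem hq)
      rw [Nat.coprime_primes hqq hpp]
      rintro rfl
      exact hp hq
    obtain ⟨a, ha, a', ha', hne, he⟩ := hbad p (Finset.mem_insert_self _ _)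
    have hxm : IsIntegral ℚ (x ^ m) := hx.pow m
    have hconj := conj_pow x hx m
    have h1 : a ^ m ∈ (minpoly ℚ (x ^ m)).rootSet ℂ := by
      rw [← hconj]; exact ⟨a, ha, rfl⟩
    have h1' : a' ^ m ∈ (minpoly ℚ (x ^ m)).rootSet ℂ := by
      rw [← hconj]; exact ⟨a', ha', rfl⟩
    have h2 : a ^ m ≠ a' ^ m := by
      intro h
      apply hne
      have ha0 : a' ≠ 0 := by
        rintro rfl
        rw [zero_pow hpp.ne_zero] at he
        exact hne (pow_eq_zero_iff hpp.ne_zero |>.mp he)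
      have h3 : (a / a') ^ m = 1 := by rw [div_pow, h, div_self (pow_ne_zero _ ha0)]
      have h4 : (a / a') ^ p = 1 := by rw [div_pow, he, div_self (pow_ne_zero _ ha0)]
      have h5 : (a / a') ^ 1 = 1 := by
        rw [← hcop]
        exact pow_gcd_eq_one.mpr ⟨h3, h4⟩
      rw [pow_one, div_eq_one_iff_eq ha0] at h5
      exact h5
    have h3 : (a ^ m) ^ p = (a' ^ m) ^ p := by
      rw [← pow_mul, ← pow_mul, mul_comm, pow_mul, pow_mul, he]
    have h4 := deg_half (x ^ m) hxm p h1 h1' h2 h3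
    rw [← pow_mul, mul_comm m p] at h4
    calc 2 ^ (B.card + 1) * (minpoly ℚ (x ^ (p * m))).natDegree
        = 2 ^ B.card * (2 * (minpoly ℚ (x ^ (p * m))).natDegree) := by ring
      _ ≤ 2 ^ B.card * (minpoly ℚ (x ^ m)).natDegree := Nat.mul_le_mul_left _ h4
      _ ≤ _ := ih'

theorem bad_card_le (x : ℂ) (hx : IsIntegral ℚ x) (B : Finset ℕ) (hB : ∀ p ∈ B, p.Prime)
    (hbad : ∀ p ∈ B, Bad x p) : 2 ^ B.card ≤ (minpoly ℚ x).natDegree := by
  have h1 := bad_card x hx B hB hbad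
  have h2 : 0 < (minpoly ℚ (x ^ (∏ p ∈ B, p))).natDegree := minpoly.natDegree_pos (hx.pow _)
  calc 2 ^ B.card = 2 ^ B.card * 1 := (mul_one _).symm
    _ ≤ 2 ^ B.card * (minpoly ℚ (x ^ (∏ p ∈ B, p))).natDegree := Nat.mul_le_mul_left _ h2
    _ ≤ _ := h1

end Pool.Agent.MZ54
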