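import Pool.Agent.MZ54.Step48
import Pool.Agent.MZ54.Cheb
import Pool.Agent.MZ54.Conj48

/-! MP_3149b0: Dobrowolski's lower bound in the form `log M ≥ c / k ^ 3` for degree `≤ k ^ k`. -/

namespace Pool.Agent.MZ54

open Polynomial

/-- the minimal polynomial of a root of an irreducible monic integer polynomial -/
theorem minpoly_root {f : ℤ[X]} (hf : f.Monic) (hi : Irreducible f) {a : ℂ}
    (ha : a ∈ (cpx f).roots) : minpoly ℚ a = f.map (algebraMap ℤ ℚ) := by
  have h1 : Irreducible (f.map (algebraMap ℤ ℚ)) :=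
    (hf.irreducible_iff_irreducible_map_fraction_map).mp hi
  have ha0 : (cpx f).eval a = 0 := isRoot_of_mem_roots ha
  have h2 : aeval a (f.map (algebraMap ℤ ℚ)) = 0 := by
    rw [aeval_map_algebraMap, aeval_def, eval₂_eq_eval_map]
    exact ha0
  exact (minpoly.eq_of_irreducible_of_monic h1 h2 (hf.map _)).symm

theorem integral_root {f : ℤ[X]} (hf : f.Monic) {a : ℂ}
    (ha : a ∈ (cpx f).roots) : IsIntegral ℚ a := by
  have ha0 : (cpx f).eval a = 0 := isRoot_of_mem_roots ha
  refine ⟨f.map (algebraMap ℤ ℚ), hf.map _, ?_⟩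
  rw [eval₂_map, eval₂_eq_eval_map]
  exact ha0

theorem mem_rootSet_iff {f : ℤ[X]} (hf : f.Monic) (hi : Irreducible f) {a : ℂ}
    (ha : a ∈ (cpx f).roots) (b : ℂ) : b ∈ (minpoly ℚ a).rootSet ℂ ↔ b ∈ (cpx f).roots := by
  rw [minpoly_root hf hi ha, mem_rootSet', mem_roots']
  have h4 : (f.map (algebraMap ℤ ℚ)).map (algebraMap ℚ ℂ) = cpx f := by
    rw [Polynomial.map_map]
    congr 1
  rw [h4, aeval_map_algebraMap, aeval_def, eval₂_eq_eval_map]
  rfl

/-- **Dobrowolski's bound** (with a weaker constant): `log M(f) ≥ c / k ^ 3` if `deg f ≤ k ^ k` -/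
theorem dob48 : ∃ c : ℝ, 0 < c ∧ ∀ f : ℤ[X], f.Monic → Irreducible f →
    1 < (cpx f).mahlerMeasure → ∀ k : ℕ, 5 ≤ k → f.natDegree ≤ k ^ k →
      c / (k : ℝ) ^ 3 ≤ Real.log (cpx f).mahlerMeasure := by
  classical
  obtain ⟨C, hC, hcheb⟩ := cheb
  refine ⟨2 / (69 * C), by positivity, ?_⟩
  intro f hf hi hM k hk hD
  obtain ⟨s, hs, hcard⟩ := hcheb k hk
  have hk' : (5 : ℝ) ≤ k := by exact_mod_cast hk
  have hk0 : (0 : ℝ) < k := by linarith
  have hlk : 0 < Real.log k := Real.log_pos (by linarith)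
  have hD1 : 1 ≤ f.natDegree := by
    rcases Nat.eq_zero_or_pos f.natDegree with h | h
    · exact absurd (hf.natDegree_eq_zero.mp h) hi.ne_one
    · exact h
  have hnd := DOB48.roots_nodup hf hi
  -- a root
  have hne : (cpx f).roots ≠ 0 := by
    intro h
    have := DOB48.card_roots_toC hf
    rw [show (DOB48.toC f).roots = 0 from h] at this
    simp at this
    omega
  obtain ⟨x, hx⟩ := Multiset.exists_mem_of_ne_zero hne
  have hxint := integral_root hf hx
  have hxdeg : (minpoly ℚ x).natDegree = f.natDegree := by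
    rw [minpoly_root hf hi hx]
    exact hf.natDegree_map _
  set S0 := (Finset.Icc 1 s).filter (fun p ↦ p.Prime ∧ k < p) with hS0
  set B := S0.filter (fun p => Bad x p) with hB
  set S := S0.filter (fun p => ¬ Bad x p) with hSdef
  have hBcard : B.card ≤ k ^ 2 := by
    have h1 : 2 ^ B.card ≤ f.natDegree := by
      rw [← hxdeg]
      apply bad_card_le x hxint
      · intro p hp
        rw [hB, Finset.mem_filter, hS0, Finset.mem_filter] at hp
        exact hp.1.2.1
      · intro p hp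
        rw [hB, Finset.mem_filter] at hp
        exact hp.2
    have h2 : 2 ^ B.card ≤ 2 ^ (k ^ 2) := by
      calc 2 ^ B.card ≤ k ^ k := h1.trans hD
        _ ≤ (2 ^ k) ^ k := Nat.pow_le_pow_left Nat.lt_two_pow_self.le k
        _ = 2 ^ (k ^ 2) := by rw [← pow_mul, sq]
    exact (Nat.pow_le_pow_iff_right (by norm_num)).mp h2
  have hScard : (8 * k + 3) * (8 * k) ≤ S.card := by
    have h1 : B.card + S.card = S0.card := Finset.card_filter_add_card_filter_not _
    omega
  have hSp : ∀ p ∈ S, 1 ≤ p ∧ p ≤ s ∧ p.Prime ∧ k < p := by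
    intro p hp
    rw [hSdef, Finset.mem_filter, hS0, Finset.mem_filter, Finset.mem_Icc] at hp
    exact ⟨hp.1.1.1, hp.1.1.2, hp.1.2.1, hp.1.2.2⟩
  have hgood : ∀ p ∈ S, ∀ a ∈ (cpx f).roots, ∀ a' ∈ (cpx f).roots, a ^ p = a' ^ p → a = a' := by
    intro p hp a ha a' ha' h
    rw [hSdef, Finset.mem_filter] at hp
    by_contra hne
    exact hp.2 ⟨a, (mem_rootSet_iff hf hi hx a).mpr ha, a', (mem_rootSet_iff hf hi hx a').mpr ha',
      hne, h⟩
  set T : Finset ℂ := ⟨(cpx f).roots, hnd⟩ with hT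
  have hMT : (cpx f).mahlerMeasure = ∏ b ∈ T, max 1 ‖b‖ := DOB48.mahler_toC hf
  have hmaxpow : ∀ (b : ℂ) (n : ℕ), max 1 ‖b ^ n‖ = (max 1 ‖b‖) ^ n := by
    intro b n
    rw [norm_pow]
    rcases le_total 1 ‖b‖ with h | h
    · rw [max_eq_right h, max_eq_right (one_le_pow₀ h)]
    · rw [max_eq_left h, max_eq_left (pow_le_one₀ (norm_nonneg _) h), one_pow]
  have himage : ∀ (n : ℕ) (a : ℂ), a ∈ (cpx f).roots →
      ((T.image (fun z => z ^ n) : Finset ℂ) : Set ℂ) = (minpoly ℚ (a ^ n)).rootSet ℂ := by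
    intro n a ha
    rw [← conj_pow a (integral_root hf ha) n, Finset.coe_image]
    congr 1
    ext b
    rw [mem_rootSet_iff hf hi ha]
    rfl
  have hprod : ∀ p ∈ S, ∏ y ∈ T.image (fun z => z ^ p), max 1 ‖y‖ = (cpx f).mahlerMeasure ^ p := by
    intro p hp
    rw [Finset.prod_image, hMT, ← Finset.prod_pow]
    · apply Finset.prod_congr rfl
      intro b _
      exact hmaxpow b p
    · intro a ha a' ha' h
      exact hgood p hp a ha a' ha' h
  have hdist : ∀ p ∈ S, ∀ q ∈ S, ∀ a ∈ (cpx f).roots,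
      ∀ a' ∈ (cpx f).roots, a ^ p = a' ^ q → p = q ∧ a = a' := by
    intro p hp q hq a ha a' ha' h
    have hpq : p = q := by
      have h1 := himage p a ha
      have h2 := himage q a' ha'
      rw [h, ← h2] at h1
      have h3 : T.image (fun z => z ^ p) = T.image (fun z => z ^ q) := Finset.coe_injective h1
      have h4 := hprod p hp
      rw [h3, hprod q hq] at h4
      exact (pow_right_injective₀ (by linarith) (by linarith) h4).symm
    subst hpq
    exact ⟨rfl, hgood p hp a ha a' ha' h⟩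
  have hmain := main_step f hf hi k hk hD s S hSp hScard hdist
  have hl0 : 0 ≤ Real.log (cpx f).mahlerMeasure := Real.log_nonneg hM.le
  set l := Real.log (cpx f).mahlerMeasure with hl
  have hW : (((8 * k + 3) * (8 * k) : ℕ) : ℝ) ≤ 69 * (k : ℝ) ^ 2 := by
    push_cast
    nlinarith
  have h1 : 2 * (k : ℝ) * Real.log k ≤ (C * (k : ℝ) ^ 2 * Real.log k) * (69 * (k : ℝ) ^ 2) * l := by
    refine hmain.trans ?_
    have hs0 : (0 : ℝ) ≤ s := by positivity
    gcongr
  rw [div_div, div_le_iff₀ (by positivity)]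
  have h2 : (2 : ℝ) * (k * Real.log k) ≤ (l * (69 * C * (k : ℝ) ^ 3)) * (k * Real.log k) := by
    calc (2 : ℝ) * (k * Real.log k) = 2 * (k : ℝ) * Real.log k := by ring
      _ ≤ _ := h1
      _ = _ := by ring
  exact le_of_mul_le_mul_right h2 (by positivity)

end Pool.Agent.MZ54
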