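import Mathlib

/-! MP_3149b0: final numerics. -/

namespace Pool.Agent.MZ54

/-- from a lower bound `l ≥ c / k ^ 3` (`D ≤ k ^ k`) and `m l ≤ log (1 + D / l)` to the bound
`m ≤ C (log D) ^ 4 / (log log D) ^ 3` -/
theorem end48 (c : ℝ) (hc : 0 < c) : ∃ C : ℝ, 0 < C ∧ ∀ (D m : ℕ) (l : ℝ), 3 ≤ D → 0 < l →
    (∀ k : ℕ, 5 ≤ k → D ≤ k ^ k → c / (k : ℝ) ^ 3 ≤ l) →
    (m : ℝ) * l ≤ Real.log (1 + D / l) →
    (m : ℝ) ≤ C * (Real.log D) ^ 4 / (Real.log (Real.log D)) ^ 3 := by
  have hlog3 : 1 < Real.log 3 := by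
    rw [Real.lt_log_iff_exp_lt (by norm_num)]
    have := Real.exp_one_lt_d9
    linarith
  set y0 := Real.log (Real.log 3) with hy0
  have hy0pos : 0 < y0 := Real.log_pos hlog3
  set K0 := |Real.log (3 / y0)| with hK0
  have hK0n : 0 ≤ K0 := abs_nonneg _
  set L0 := Real.log (1 + 1 / c) with hL0
  have hL0n : 0 ≤ L0 := Real.log_nonneg (by
    have : 0 < 1 / c := by positivity
    linarith)
  refine ⟨(4 + 3 * K0 + L0) * 27 / c, by positivity, ?_⟩
  intro D m l hD hl hk hm
  have hD' : (3 : ℝ) ≤ D := by exact_mod_cast hD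
  set x := Real.log D with hx
  have hx3 : Real.log 3 ≤ x := Real.log_le_log (by norm_num) hD'
  have hx1 : 1 < x := by linarith
  set y := Real.log x with hy
  have hyy0 : y0 ≤ y := Real.log_le_log (by linarith) hx3
  have hypos : 0 < y := by linarith
  -- x / y ≥ e
  have hxy : 2.7 * y ≤ x := by
    -- log (x / e) ≤ x / e - 1
    have h1 := Real.log_le_sub_one_of_pos (show 0 < x / Real.exp 1 by positivity)
    rw [Real.log_div (by linarith) (Real.exp_pos 1).ne', Real.log_exp] at h1
    have h2 : y ≤ x / Real.exp 1 := by linarith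
    have h3 := Real.exp_one_gt_d9
    rw [le_div_iff₀ (Real.exp_pos 1)] at h2
    nlinarith
  have hxy' : 2.7 ≤ x / y := by
    rw [le_div_iff₀ hypos]
    linarith
  set k : ℕ := ⌈2 * (x / y)⌉₊ with hkdef
  have hk1 : 2 * (x / y) ≤ k := Nat.le_ceil _
  have hk2 : (k : ℝ) ≤ 3 * (x / y) := by
    have := (Nat.ceil_lt_add_one (a := 2 * (x / y)) (by positivity)).le
    rw [← hkdef] at this
    linarith
  have hk5 : 5 ≤ k := by
    have h1 : (5 : ℝ) < k := by linarith
    have h2 : 5 < k := by exact_mod_cast h1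
    omega
  have hk5' : (5 : ℝ) ≤ k := by exact_mod_cast hk5
  have hk0 : (0 : ℝ) < k := by linarith
  have hDk : D ≤ k ^ k := by
    have h1 : x ≤ (k : ℝ) * Real.log k := by
      have h2 : Real.log (2 * (x / y)) ≤ Real.log k := Real.log_le_log (by positivity) hk1
      have h3 : Real.log (2 * (x / y)) = Real.log 2 + (y - Real.log y) := by
        rw [Real.log_mul (by norm_num) (by positivity), Real.log_div (by linarith) hypos.ne']
      have h4 : Real.log y ≤ y / 2 + Real.log 2 := by
        have h5 := Real.log_le_sub_one_of_pos (show 0 < y / 2 by positivity)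
        rw [Real.log_div hypos.ne' (by norm_num)] at h5
        linarith
      have h6 : y / 2 ≤ Real.log k := by linarith
      calc x = 2 * (x / y) * (y / 2) := by field_simp
        _ ≤ (k : ℝ) * Real.log k := by gcongr
    have h7 : Real.log D ≤ Real.log ((k : ℝ) ^ k) := by
      rw [Real.log_pow]
      exact h1
    have h8 : (D : ℝ) ≤ (k : ℝ) ^ k :=
      (Real.log_le_log_iff (by linarith) (by positivity)).mp h7
    exact_mod_cast h8
  have hl0 := hk k hk5 hDk
  set l0 := c / (k : ℝ) ^ 3 with hl0def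
  have hl0pos : 0 < l0 := by positivity
  have hm0 : (m : ℝ) * l0 ≤ Real.log (1 + D / l0) := by
    calc (m : ℝ) * l0 ≤ (m : ℝ) * l := by gcongr
      _ ≤ Real.log (1 + D / l) := hm
      _ ≤ Real.log (1 + D / l0) := by
          apply Real.log_le_log (by positivity)
          gcongr
  have hlogk : Real.log k ≤ (K0 + 1) * x := by
    have h1 : (k : ℝ) ≤ (3 / y0) * x := by
      calc (k : ℝ) ≤ 3 * (x / y) := hk2
        _ ≤ 3 * (x / y0) := by gcongr
        _ = (3 / y0) * x := by ring
    have h2 : Real.log k ≤ Real.log ((3 / y0) * x) := Real.log_le_log hk0 h1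
    rw [Real.log_mul (by positivity) (by linarith)] at h2
    have h3 : Real.log (3 / y0) ≤ K0 := le_abs_self _
    have h4 : Real.log x ≤ x := by
      have := Real.log_le_sub_one_of_pos (show 0 < x by linarith)
      linarith
    nlinarith
  have hlogD : Real.log (1 + D / l0) ≤ (4 + 3 * K0 + L0) * x := by
    have h1 : 1 + (D : ℝ) / l0 ≤ (1 + 1 / c) * (D * (k : ℝ) ^ 3) := by
      have h2 : (D : ℝ) / l0 = 1 / c * (D * (k : ℝ) ^ 3) := by
        rw [hl0def]
        field_simp
      rw [h2]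
      have h3 : (1 : ℝ) ≤ D * (k : ℝ) ^ 3 := by
        have h4 : (1 : ℝ) ≤ (k : ℝ) ^ 3 := one_le_pow₀ (by linarith)
        nlinarith
      linarith
    calc Real.log (1 + D / l0) ≤ Real.log ((1 + 1 / c) * (D * (k : ℝ) ^ 3)) :=
          Real.log_le_log (by positivity) h1
      _ = L0 + (x + 3 * Real.log k) := by
          rw [Real.log_mul (by positivity) (by positivity),
            Real.log_mul (by positivity) (by positivity), Real.log_pow]
          push_cast
          ring
      _ ≤ L0 * x + (x + 3 * ((K0 + 1) * x)) := by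
          gcongr
          nlinarith
      _ = (4 + 3 * K0 + L0) * x := by ring
  have hA : 0 ≤ 4 + 3 * K0 + L0 := by positivity
  have h1 : (m : ℝ) ≤ (4 + 3 * K0 + L0) * x / l0 := by
    rw [le_div_iff₀ hl0pos]
    exact hm0.trans hlogD
  calc (m : ℝ) ≤ (4 + 3 * K0 + L0) * x / l0 := h1
    _ = (4 + 3 * K0 + L0) * x * (k : ℝ) ^ 3 / c := by
        rw [hl0def]
        field_simp
    _ ≤ (4 + 3 * K0 + L0) * x * (3 * (x / y)) ^ 3 / c := by gcongr
    _ = (4 + 3 * K0 + L0) * 27 / c * x ^ 4 / y ^ 3 := by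
        field_simp
        ring

end Pool.Agent.MZ54
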