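import Pool.Agent.MZ54.Mult

/-! MP_3149b0: heights and powers (field theory part). -/

set_option autoImplicit false

namespace Pool.Agent.MZ54

open Polynomial Module IntermediateField

/-- the product over the embeddings of `ℚ(y)` is the Mahler measure of the minimal polynomial -/
lemma prod_emb_gen (F : Type*) [Field F] [NumberField F] (y : F) (pb : PowerBasis ℚ ℚ⟮y⟯)
    (hpb : algebraMap ℚ⟮y⟯ F pb.gen = y) :
    (@Finset.univ _ (PowerBasis.AlgHom.fintype pb)).prod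
      (fun σ : ℚ⟮y⟯ →ₐ[ℚ] ℂ ↦ max (1 : ℝ) ‖σ pb.gen‖) =
    ((minpoly ℚ y).map (algebraMap ℚ ℂ)).mahlerMeasure := by
  have hy : IsIntegral ℚ y := Algebra.IsIntegral.isIntegral y
  have hmp : minpoly ℚ pb.gen = minpoly ℚ y := by
    conv_rhs => rw [← hpb]
    rw [minpoly.algebraMap_eq (algebraMap ℚ⟮y⟯ F).injective]
  have hmon : ((minpoly ℚ y).map (algebraMap ℚ ℂ)).Monic := (minpoly.monic hy).map _
  rw [mahler_monic _ hmon]
  let := Classical.decEq ℂ
  rw [@Fintype.prod_equiv (ℚ⟮y⟯ →ₐ[ℚ] ℂ) _ _ (PowerBasis.AlgHom.fintype pb) _ _ pb.liftEquiv'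
    (fun σ => max (1 : ℝ) ‖σ pb.gen‖) (fun x => max (1 : ℝ) ‖(x : ℂ)‖) ?_]
  · rw [Finset.prod_mem_multiset, Finset.prod_eq_multiset_prod, Multiset.toFinset_val,
      Multiset.dedup_eq_self.mpr]
    · rw [aroots, hmp]
    · exact nodup_roots (((minpoly.irreducible (A := ℚ) pb.isIntegral_gen)).separable.map)
    · intro x; rfl
  · intro σ; simp only [PowerBasis.liftEquiv'_apply_coe]

lemma prod_emb (F : Type*) [Field F] [NumberField F] (y : F) :
    ∏ σ : F →ₐ[ℚ] ℂ, max (1 : ℝ) ‖σ y‖ =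
      (((minpoly ℚ y).map (algebraMap ℚ ℂ)).mahlerMeasure) ^ finrank ℚ⟮y⟯ F := by
  have hy : IsIntegral ℚ y := Algebra.IsIntegral.isIntegral y
  let pb := IntermediateField.adjoin.powerBasis hy
  have hpb : algebraMap ℚ⟮y⟯ F pb.gen = y := by
    rw [IntermediateField.adjoin.powerBasis_gen hy, AdjoinSimple.algebraMap_gen]
  rw [← prod_emb_gen F y pb hpb]
  let : Fintype (ℚ⟮y⟯ →ₐ[ℚ] ℂ) := PowerBasis.AlgHom.fintype pb
  rw [Fintype.prod_equiv algHomEquivSigma (fun σ : F →ₐ[ℚ] ℂ ↦ max (1 : ℝ) ‖σ y‖)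
    (fun σ ↦ max (1 : ℝ) ‖σ.1 pb.gen‖),
    ← Finset.univ_sigma_univ, Finset.prod_sigma, ← Finset.prod_pow]
  · refine Finset.prod_congr rfl fun σ _ => ?_
    let : Algebra ℚ⟮y⟯ ℂ := σ.toRingHom.toAlgebra
    simp_rw [Finset.prod_const]
    congr
    exact AlgHom.card ℚ⟮y⟯ F ℂ
  · intro σ
    simp only [algHomEquivSigma, Equiv.coe_fn_mk, AlgHom.domRestrict, AlgHom.comp_apply,
      IsScalarTower.coe_toAlgHom', hpb]

end Pool.Agent.MZ54
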