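import Pool.Agent.MZ54.Field

/-! MP_3149b0: heights and powers (field theory part 2). -/

set_option autoImplicit false

namespace Pool.Agent.MZ54

open Polynomial Module IntermediateField

lemma Mz_eq (y : ℂ) (hy : IsIntegral ℤ y) :
    Mz y = ((minpoly ℚ y).map (algebraMap ℚ ℂ)).mahlerMeasure := by
  rw [Mz, cpx_minpoly y hy]

lemma Dz_eq (y : ℂ) (hy : IsIntegral ℤ y) : Dz y = finrank ℚ ℚ⟮y⟯ := by
  rw [IntermediateField.adjoin.finrank (hy.tower_top : IsIntegral ℚ y), minpoly_rat y hy,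
    (minpoly.monic hy).natDegree_map, Dz]

lemma Dz_pos (y : ℂ) (hy : IsIntegral ℤ y) : 0 < Dz y := minpoly.natDegree_pos hy

lemma one_le_Mz (y : ℂ) (hy : IsIntegral ℤ y) : 1 ≤ Mz y := by
  rw [Mz, mahler_monic _ ((minpoly.monic hy).map _)]
  apply Multiset.one_le_prod
  intro x hx
  obtain ⟨a, _, rfl⟩ := Multiset.mem_map.mp hx
  exact le_max_left _ _

section
variable (F : Type*) [Field F] [NumberField F] (ι : F →ₐ[ℚ] ℂ)

lemma T_eq (y : F) (hy : IsIntegral ℤ (ι y)) :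
    ∏ σ : F →ₐ[ℚ] ℂ, max (1 : ℝ) ‖σ y‖ = Mz (ι y) ^ finrank ℚ⟮y⟯ F := by
  rw [prod_emb, Mz_eq _ hy, minpoly.algHom_eq ι ι.injective]

lemma D_mul (y : F) (hy : IsIntegral ℤ (ι y)) :
    Dz (ι y) * finrank ℚ⟮y⟯ F = finrank ℚ F := by
  rw [← finrank_mul_finrank ℚ ℚ⟮y⟯ F]
  congr 1
  rw [IntermediateField.adjoin.finrank (Algebra.IsIntegral.isIntegral y), Dz,
    ← (minpoly.monic hy).natDegree_map (Int.castRingHom ℚ), ← minpoly_rat _ hy,
    minpoly.algHom_eq ι ι.injective]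

lemma T_pow (y : F) (n : ℕ) :
    ∏ σ : F →ₐ[ℚ] ℂ, max (1 : ℝ) ‖σ (y ^ n)‖ = (∏ σ : F →ₐ[ℚ] ℂ, max (1 : ℝ) ‖σ y‖) ^ n := by
  rw [← Finset.prod_pow]
  apply Finset.prod_congr rfl
  intro σ _
  rw [map_pow, norm_pow]
  rcases le_total 1 ‖σ y‖ with h | h
  · rw [max_eq_right h, max_eq_right (one_le_pow₀ h)]
  · rw [max_eq_left h, one_pow, max_eq_left (pow_le_one₀ (norm_nonneg _) h)]

end

lemma field_data_aux (F : Type) [Field F] [NumberField F] (ι : F →ₐ[ℚ] ℂ) (g : F) (b : ℂ)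
    (hg : ι g = b) (hb : IsIntegral ℤ b) (hfin : finrank ℚ F = Dz b) :
    ∏ σ : F →ₐ[ℚ] ℂ, max (1 : ℝ) ‖σ g‖ = Mz b := by
  have hint : IsIntegral ℤ (ι g) := by rw [hg]; exact hb
  have h1 := T_eq F ι g hint
  have h2 := D_mul F ι g hint
  rw [hg, hfin] at h2
  rw [hg] at h1
  have h3 : finrank ℚ⟮g⟯ F = 1 :=
    Nat.eq_of_mul_eq_mul_left (Dz_pos b hb) (by rw [h2, mul_one])
  rw [h1, h3, pow_one]

/-- the data attached to an algebraic integer -/
theorem field_data (b : ℂ) (hb : IsIntegral ℤ b) :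
    ∃ (F : Type) (_ : Field F) (_ : NumberField F) (ι : F →ₐ[ℚ] ℂ) (g : F), ι g = b ∧
      finrank ℚ F = Dz b ∧ ∏ σ : F →ₐ[ℚ] ℂ, max (1 : ℝ) ‖σ g‖ = Mz b := by
  have hq : IsIntegral ℚ b := hb.tower_top
  have : FiniteDimensional ℚ ℚ⟮b⟯ := IntermediateField.adjoin.finiteDimensional hq
  have hnf : NumberField ℚ⟮b⟯ := { to_charZero := inferInstance, to_finiteDimensional := this }
  have hfin : finrank ℚ ℚ⟮b⟯ = Dz b := (Dz_eq b hb).symm
  have hg : (algebraMap ℚ⟮b⟯ ℂ).toRatAlgHom (AdjoinSimple.gen ℚ b) = b :=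
    AdjoinSimple.algebraMap_gen ℚ b
  exact ⟨ℚ⟮b⟯, inferInstance, hnf, (algebraMap ℚ⟮b⟯ ℂ).toRatAlgHom, AdjoinSimple.gen ℚ b, hg,
    hfin, field_data_aux ℚ⟮b⟯ _ _ b hg hb hfin⟩

theorem power_formula (b : ℂ) (hb : IsIntegral ℤ b) (n : ℕ) :
    ∃ e : ℕ, Dz (b ^ n) * e = Dz b ∧ Mz (b ^ n) ^ e = Mz b ^ n := by
  obtain ⟨F, _, _, ι, g, hg, hfin, hT⟩ := field_data b hb
  have hgn : ι (g ^ n) = b ^ n := by rw [map_pow, hg]
  have hint : IsIntegral ℤ (ι (g ^ n)) := by rw [hgn]; exact hb.pow n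
  refine ⟨finrank ℚ⟮g ^ n⟯ F, ?_, ?_⟩
  · rw [← hfin, ← D_mul F ι (g ^ n) hint, hgn]
  · rw [← hT, ← T_pow, T_eq F ι (g ^ n) hint, hgn]

lemma conj_eq (b a : ℂ) (hb : IsIntegral ℤ b) (ha : (cpx (minpoly ℤ b)).eval a = 0) :
    IsIntegral ℤ a ∧ minpoly ℤ a = minpoly ℤ b := by
  have h1 : aeval a (minpoly ℤ b) = 0 := by rw [aeval_eq]; exact ha
  have ha' : IsIntegral ℤ a := ⟨minpoly ℤ b, minpoly.monic hb, by rwa [aeval_def] at h1⟩
  refine ⟨ha', ?_⟩
  have h2 := minpoly.isIntegrallyClosed_dvd ha' h1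
  have h3 : Irreducible (minpoly ℤ b) := minpoly.irreducible hb
  obtain ⟨q, hq⟩ := h2
  have h4 : Irreducible (minpoly ℤ a) := minpoly.irreducible ha'
  have h5 : Associated (minpoly ℤ a) (minpoly ℤ b) :=
    (h4.dvd_irreducible_iff_associated h3).mp ⟨q, hq⟩
  exact eq_of_monic_of_associated (minpoly.monic ha') (minpoly.monic hb) h5

/-- powers with different exponents -/
theorem distinct_exp (b : ℂ) (hb : IsIntegral ℤ b) (hM : 1 < Mz b) (p q : ℕ)
    (a a' : ℂ) (ha : (cpx (minpoly ℤ b)).eval a = 0) (ha' : (cpx (minpoly ℤ b)).eval a' = 0)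
    (h : a ^ p = a' ^ q) : p = q := by
  obtain ⟨hai, hma⟩ := conj_eq b a hb ha
  obtain ⟨hai', hma'⟩ := conj_eq b a' hb ha'
  obtain ⟨e, he1, he2⟩ := power_formula a hai p
  obtain ⟨e', he1', he2'⟩ := power_formula a' hai' q
  have hD : Dz a = Dz b := by rw [Dz, Dz, hma]
  have hD' : Dz a' = Dz b := by rw [Dz, Dz, hma']
  have hMa : Mz a = Mz b := by rw [Mz, Mz, hma]
  have hMa' : Mz a' = Mz b := by rw [Mz, Mz, hma']
  rw [h, hD] at he1
  rw [hD'] at he1'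
  rw [h, hMa] at he2
  rw [hMa'] at he2'
  have hpos : 0 < Dz (a' ^ q) := Dz_pos _ (hai'.pow q)
  have hee : e = e' := Nat.eq_of_mul_eq_mul_left hpos (by rw [he1, he1'])
  rw [hee, he2'] at he2
  exact (pow_right_injective₀ (by linarith) hM.ne' he2).symm

/-- if two conjugates have the same `p`-th power then the degree drops -/
lemma degree_drop (b : ℂ) (hb : IsIntegral ℤ b) (p : ℕ)
    (a a' : ℂ) (ha : (cpx (minpoly ℤ b)).eval a = 0) (ha' : (cpx (minpoly ℤ b)).eval a' = 0)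
    (hne : a ≠ a') (h : a ^ p = a' ^ p) : Dz (b ^ p) < Dz b := by
  obtain ⟨e, he, -⟩ := power_formula b hb p
  have hpos : 0 < Dz b := Dz_pos b hb
  have hle : Dz (b ^ p) ≤ Dz b := by
    rw [← he]
    apply Nat.le_mul_of_pos_right
    rcases Nat.eq_zero_or_pos e with h0 | h0
    · rw [h0, mul_zero] at he; omega
    · exact h0
  refine lt_of_le_of_ne hle ?_
  intro heq
  apply hne
  have hq : IsIntegral ℚ b := hb.tower_top
  have hqp : IsIntegral ℚ (b ^ p) := hq.pow p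
  have : FiniteDimensional ℚ ℚ⟮b⟯ := IntermediateField.adjoin.finiteDimensional hq
  have hle2 : ℚ⟮b ^ p⟯ ≤ ℚ⟮b⟯ := by
    rw [IntermediateField.adjoin_simple_le_iff]
    exact pow_mem (mem_adjoin_simple_self ℚ b) p
  have hfe : finrank ℚ ℚ⟮b ^ p⟯ = finrank ℚ ℚ⟮b⟯ := by
    rw [← Dz_eq _ (hb.pow p), ← Dz_eq _ hb, heq]
  have heq2 : ℚ⟮b ^ p⟯ = ℚ⟮b⟯ := IntermediateField.eq_of_le_of_finrank_eq hle2 hfe
  have hmem : b ∈ ℚ⟮b ^ p⟯ := by rw [heq2]; exact mem_adjoin_simple_self ℚ b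
  have hmem2 : b ∈ (ℚ⟮b ^ p⟯).toSubalgebra := hmem
  rw [IntermediateField.adjoin_simple_toSubalgebra_of_isAlgebraic hqp.isAlgebraic,
    Algebra.adjoin_singleton_eq_range_aeval] at hmem2
  obtain ⟨Q, hQ⟩ := hmem2
  have hroot : ∀ c : ℂ, (cpx (minpoly ℤ b)).eval c = 0 → c = aeval (c ^ p) Q := by
    intro c hc
    have h1 : aeval b (Q.comp (X ^ p) - X) = 0 := by
      rw [map_sub, aeval_comp, map_pow, aeval_X, sub_eq_zero]
      exact hQ
    obtain ⟨R, hR⟩ := minpoly.dvd ℚ b h1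
    have h2 : aeval c (minpoly ℚ b) = 0 := by
      rw [aeval_def, ← eval_map, ← cpx_minpoly b hb]; exact hc
    have h3 : aeval c (Q.comp (X ^ p) - X) = 0 := by rw [hR, map_mul, h2, zero_mul]
    rw [map_sub, aeval_comp, map_pow, aeval_X, sub_eq_zero] at h3
    exact h3.symm
  rw [hroot a ha, hroot a' ha', h]

theorem drop (b : ℂ) (hb : IsIntegral ℤ b) (hM : 1 < Mz b) (p : ℕ) (hp : p.Prime)
    (a a' : ℂ) (ha : (cpx (minpoly ℤ b)).eval a = 0) (ha' : (cpx (minpoly ℤ b)).eval a' = 0)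
    (hne : a ≠ a') (h : a ^ p = a' ^ p) :
    ∃ y : ℂ, IsIntegral ℤ y ∧ 1 < Mz y ∧ Dz y < Dz b ∧ Mz y ≤ Mz b := by
  have hdd := degree_drop b hb p a a' ha ha' hne h
  obtain ⟨F, _, _, ι, g, hg, hfin, hT⟩ := field_data b hb
  have hgn : ι (g ^ p) = b ^ p := by rw [map_pow, hg]
  have hint : IsIntegral ℤ (ι (g ^ p)) := by rw [hgn]; exact hb.pow p
  let K := ℚ⟮g ^ p⟯
  let aK : K := ⟨g ^ p, mem_adjoin_simple_self ℚ (g ^ p)⟩
  have hTp := T_pow F g p
  rw [T_eq F ι (g ^ p) hint, hgn, hT] at hTp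
  by_cases hc : ∃ c : K, c ^ p = aK
  · obtain ⟨c, hc⟩ := hc
    have hcF : (c : F) ^ p = g ^ p := by
      have := congrArg (fun t : K ↦ (t : F)) hc
      simpa using this
    have hyp : (ι (c : F)) ^ p = b ^ p := by rw [← map_pow, hcF, hgn]
    have hyint : IsIntegral ℤ (ι (c : F)) := by
      apply IsIntegral.of_pow hp.pos
      rw [hyp]
      exact hb.pow p
    have hnn : ∀ t : F, 0 ≤ ∏ σ : F →ₐ[ℚ] ℂ, max (1 : ℝ) ‖σ t‖ := fun t ↦
      Finset.prod_nonneg (fun σ _ ↦ le_trans zero_le_one (le_max_left _ _))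
    have hTc : ∏ σ : F →ₐ[ℚ] ℂ, max (1 : ℝ) ‖σ (c : F)‖ = Mz b := by
      have h1 := T_pow F (c : F) p
      rw [hcF, T_pow F g p] at h1
      have h2 := (pow_left_inj₀ (hnn _) (hnn _) hp.ne_zero).mp h1
      rw [← h2, hT]
    rw [T_eq F ι (c : F) hyint] at hTc
    have hDc := D_mul F ι (c : F) hyint
    have he : finrank ℚ⟮(c : F)⟯ F ≠ 0 := finrank_pos.ne'
    have h1M := one_le_Mz _ hyint
    refine ⟨ι (c : F), hyint, ?_, ?_, ?_⟩
    · by_contra hcon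
      have h1 : Mz (ι (c : F)) = 1 := le_antisymm (not_lt.mp hcon) h1M
      rw [h1, one_pow] at hTc
      linarith
    · refine lt_of_le_of_lt ?_ hdd
      have hD1 := D_mul F ι (g ^ p) hint
      rw [hgn] at hD1
      have hle : ℚ⟮(c : F)⟯ ≤ K := by
        rw [IntermediateField.adjoin_simple_le_iff]
        exact c.2
      have h3 : finrank ℚ ℚ⟮(c : F)⟯ ≤ finrank ℚ K := IntermediateField.finrank_le_of_le_right hle
      have h4 : finrank ℚ ℚ⟮(c : F)⟯ = Dz (ι (c : F)) := by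
        apply Nat.eq_of_mul_eq_mul_right (finrank_pos : 0 < finrank ℚ⟮(c : F)⟯ F)
        rw [hDc, finrank_mul_finrank]
      have h5 : finrank ℚ K = Dz (b ^ p) := by
        apply Nat.eq_of_mul_eq_mul_right (finrank_pos : 0 < finrank K F)
        rw [hD1, finrank_mul_finrank]
      rwa [h4, h5] at h3
    · rw [← hTc]
      exact le_self_pow₀ h1M he
  · push Not at hc
    have hirr := X_pow_sub_C_irreducible_of_prime hp hc
    have hmon : (X ^ p - C aK : K[X]).Monic := monic_X_pow_sub_C _ hp.ne_zero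
    have hev : aeval g (X ^ p - C aK : K[X]) = 0 := by
      rw [map_sub, map_pow, aeval_X, aeval_C, sub_eq_zero]
      rfl
    have hmin := minpoly.eq_of_irreducible_of_monic hirr hev hmon
    have hdeg : p ≤ finrank K F := by
      have h1 := minpoly.natDegree_le (A := K) g
      rwa [← hmin, natDegree_X_pow_sub_C] at h1
    have h1M := one_le_Mz _ (hb.pow p)
    have hple : Mz (b ^ p) ≤ Mz b := by
      have h1 : Mz (b ^ p) ^ p ≤ Mz b ^ p := by
        rw [← hTp]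
        exact pow_le_pow_right₀ h1M hdeg
      exact (pow_le_pow_iff_left₀ (by linarith) (by linarith) hp.ne_zero).mp h1
    refine ⟨b ^ p, hb.pow p, ?_, hdd, hple⟩
    by_contra hcon
    have h1 : Mz (b ^ p) = 1 := le_antisymm (not_lt.mp hcon) h1M
    rw [h1, one_pow] at hTp
    have := one_lt_pow₀ hM hp.ne_zero
    linarith

end Pool.Agent.MZ54
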