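import Pool.Agent.MZ54.Jen

/-! MP_3149b0: `M^m ≤ 1 + K / log M`. -/

set_option autoImplicit false

namespace Pool.Agent.MZ54

open Polynomial Real

lemma prod_ite_countP {α : Type*} (s : Multiset α) (p : α → Prop) [DecidablePred p] (r : ℝ) :
    (s.map (fun a ↦ if p a then r else 1)).prod = r ^ s.countP p := by
  induction s using Multiset.induction_on with
  | empty => simp
  | cons a s ih =>
    rw [Multiset.map_cons, Multiset.prod_cons, ih, Multiset.countP_cons]
    by_cases h : p a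
    · simp [h, pow_succ']
    · simp [h]

lemma prod_map_le_prod_map' {α : Type*} (s : Multiset α) (f g : α → ℝ)
    (h0 : ∀ a ∈ s, 0 ≤ f a) (h : ∀ a ∈ s, f a ≤ g a) : (s.map f).prod ≤ (s.map g).prod := by
  induction s using Multiset.induction_on with
  | empty => simp
  | cons a s ih =>
    rw [Multiset.map_cons, Multiset.prod_cons, Multiset.map_cons, Multiset.prod_cons]
    have h1 := ih (fun b hb ↦ h0 b (Multiset.mem_cons_of_mem hb))
      (fun b hb ↦ h b (Multiset.mem_cons_of_mem hb))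
    have h2 : 0 ≤ (s.map f).prod := Multiset.prod_nonneg (by
      intro x hx
      obtain ⟨b, hb, rfl⟩ := Multiset.mem_map.mp hx
      exact h0 b (Multiset.mem_cons_of_mem hb))
    exact mul_le_mul (h a (Multiset.mem_cons_self a s)) h1 h2
      ((h0 a (Multiset.mem_cons_self a s)).trans (h a (Multiset.mem_cons_self a s)))

/-- number of roots in the open unit disc -/
noncomputable def innerCount (f : ℂ[X]) : ℕ := by
  classical exact f.roots.countP (fun a ↦ ‖a‖ < 1)

lemma mahler_monic (f : ℂ[X]) (hf : f.Monic) :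
    f.mahlerMeasure = (f.roots.map (fun a ↦ max 1 ‖a‖)).prod := by
  rw [mahlerMeasure_eq_leadingCoeff_mul_prod_roots, hf.leadingCoeff]; simp

lemma low_bound (f : ℂ[X]) (hf : f.Monic) (hf0 : ‖f.coeff 0‖ = 1) (r : ℝ) (hr : 0 < r) :
    f.mahlerMeasure * r ^ innerCount f ≤ (f.roots.map (fun a ↦ max 1 (r / ‖a‖))).prod := by
  classical
  have hroot : ∀ a ∈ f.roots, 0 < ‖a‖ := by
    intro a ha
    rw [norm_pos_iff]
    rintro rfl
    have h1 := (mem_roots'.mp ha).2
    rw [IsRoot.def, ← coeff_zero_eq_eval_zero] at h1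
    rw [h1] at hf0
    simp at hf0
  have hinv : (f.roots.map (fun a ↦ ‖a‖⁻¹)).prod = 1 := by
    rw [Multiset.prod_map_inv, ← norm_coeff_zero f hf, hf0, inv_one]
  have h1 : f.mahlerMeasure * r ^ innerCount f =
      (f.roots.map (fun a ↦ (max 1 ‖a‖ * ‖a‖⁻¹) * (if ‖a‖ < 1 then r else 1))).prod := by
    rw [Multiset.prod_map_mul, Multiset.prod_map_mul, hinv, mul_one, mahler_monic f hf,
      prod_ite_countP]
    congr 2
  rw [h1]
  apply prod_map_le_prod_map'
  · intro a ha
    have := hroot a ha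
    split_ifs <;> positivity
  · intro a ha
    have h2 := hroot a ha
    split_ifs with h
    · rw [max_eq_left h.le, one_mul, mul_comm, ← div_eq_mul_inv]
      exact le_max_right _ _
    · rw [max_eq_right (not_lt.mp h), mul_one, mul_inv_cancel₀ h2.ne']
      exact le_max_left _ _

lemma one_lt_mahler (f : ℂ[X]) (hf : f.Monic) (hf0 : ‖f.coeff 0‖ = 1) (z : ℂ) (hz : z ∈ f.roots)
    (hz1 : ‖z‖ < 1) : 1 < f.mahlerMeasure := by
  have hroot : ∀ a ∈ f.roots, 0 < ‖a‖ := by
    intro a ha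
    rw [norm_pos_iff]
    rintro rfl
    have h1 := (mem_roots'.mp ha).2
    rw [IsRoot.def, ← coeff_zero_eq_eval_zero] at h1
    rw [h1] at hf0
    simp at hf0
  rw [mahler_monic f hf]
  obtain ⟨s, hs⟩ := Multiset.exists_cons_of_mem hz
  have hn := norm_coeff_zero f hf
  rw [hf0, hs, Multiset.map_cons, Multiset.prod_cons] at hn
  rw [hs, Multiset.map_cons, Multiset.prod_cons, max_eq_left hz1.le, one_mul]
  have h1 : (s.map (fun a ↦ ‖a‖)).prod ≤ (s.map (fun a ↦ max 1 ‖a‖)).prod :=
    prod_map_le_prod_map' _ _ _ (fun _ _ ↦ norm_nonneg _) (fun _ _ ↦ le_max_right _ _)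
  have hz0 := hroot z hz
  have h2 : 1 < (s.map (fun a ↦ ‖a‖)).prod := by
    by_contra h
    push Not at h
    have : ‖z‖ * (s.map (fun a ↦ ‖a‖)).prod ≤ ‖z‖ * 1 := mul_le_mul_of_nonneg_left h hz0.le
    linarith
  linarith

lemma innerCount_pos (f : ℂ[X]) (z : ℂ) (hz : z ∈ f.roots) (hz1 : ‖z‖ < 1) :
    0 < innerCount f := by
  classical
  unfold innerCount
  rw [Multiset.countP_pos]
  exact ⟨z, hz, hz1⟩

/-- **Part (1).** -/
theorem mult_bound (f g : ℂ[X]) (m : ℕ) (hf : f.Monic) (hf0 : ‖f.coeff 0‖ = 1)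
    (hP : ∀ j, ‖(f ^ m * g).coeff j‖ ≤ 1) (hP0 : 1 ≤ ‖(f ^ m * g).coeff 0‖)
    (z : ℂ) (hz : z ∈ f.roots) (hz1 : ‖z‖ < 1) :
    f.mahlerMeasure ^ m ≤ 1 + innerCount f / Real.log f.mahlerMeasure := by
  have hM := one_lt_mahler f hf hf0 z hz hz1
  have hK := innerCount_pos f z hz hz1
  set M := f.mahlerMeasure with hMdef
  set K := innerCount f with hKdef
  have hK' : (0 : ℝ) < K := by exact_mod_cast hK
  have hlog : 0 < Real.log M := Real.log_pos hM
  set x := Real.log M / K with hx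
  have hx0 : 0 < x := by positivity
  set r := Real.exp (-(x / 2)) with hr
  have hr0 : 0 < r := Real.exp_pos _
  have hr1 : r < 1 := by rw [hr, Real.exp_lt_one_iff]; linarith
  have hf0' : f.coeff 0 ≠ 0 := by intro h; rw [h] at hf0; simp at hf0
  have h1 := jensen f g m hf hf0' hP hP0 r hr0 hr1
  have h2 := low_bound f hf hf0 r hr0
  have hrK : r ^ K = Real.exp (-(Real.log M / 2)) := by
    rw [hr, ← Real.exp_nat_mul]
    congr 1
    rw [hx]
    field_simp
  have hMr : M * r ^ K = Real.exp (Real.log M / 2) := by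
    rw [hrK]
    nth_rewrite 1 [← Real.exp_log (zero_lt_one.trans hM)]
    rw [← Real.exp_add]
    congr 1
    ring
  have h3 : (Real.exp (Real.log M / 2)) ^ m ≤ (√(1 - r ^ 2))⁻¹ := by
    refine le_trans ?_ h1
    rw [← hMr]
    exact pow_le_pow_left₀ (by positivity) h2 m
  have hr2 : r ^ 2 = Real.exp (-x) := by
    rw [hr, ← Real.exp_nat_mul]
    congr 1
    push_cast
    ring
  have hpos : 0 < 1 - r ^ 2 := by nlinarith
  -- square
  have h4 : M ^ m ≤ (1 - r ^ 2)⁻¹ := by
    have h5 : M ^ m = ((Real.exp (Real.log M / 2)) ^ m) ^ 2 := by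
      rw [← pow_mul, mul_comm, pow_mul, ← Real.exp_nat_mul]
      congr 1
      push_cast
      rw [mul_div_cancel₀ _ (by norm_num : (2:ℝ) ≠ 0), Real.exp_log (zero_lt_one.trans hM)]
    rw [h5]
    refine (pow_le_pow_left₀ (by positivity) h3 2).trans ?_
    rw [inv_pow, Real.sq_sqrt hpos.le]
  refine h4.trans ?_
  rw [hr2]
  have h6 : 1 + K / Real.log M = (1 + x) / x := by
    rw [hx]
    field_simp
    ring
  rw [h6, inv_eq_one_div]
  have h7 : Real.exp (-x) ≤ 1 / (1 + x) := by
    rw [Real.exp_neg, inv_eq_one_div]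
    apply one_div_le_one_div_of_le (by linarith)
    have := Real.add_one_le_exp x
    linarith
  have h8 : x / (1 + x) ≤ 1 - Real.exp (-x) := by
    have : x / (1 + x) = 1 - 1 / (1 + x) := by field_simp; ring
    rw [this]
    linarith
  have h9 : (0 : ℝ) < x / (1 + x) := by positivity
  calc 1 / (1 - Real.exp (-x)) ≤ 1 / (x / (1 + x)) := one_div_le_one_div_of_le h9 h8
    _ = (1 + x) / x := by rw [one_div_div]

end Pool.Agent.MZ54
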