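import Pool.Agent.MZ54.Ineq

/-! MP_3149b0: the sharp form of the Jensen bound. -/

set_option autoImplicit false

namespace Pool.Agent.MZ54

open Polynomial Real

/-- **Sharp form.** With `n = m K`: `M ^ (2 m) n ^ n ≤ (n + 1) ^ (n + 1)`. -/
theorem mult_bound_sharp (f g : ℂ[X]) (m : ℕ) (hm : 0 < m) (hf : f.Monic)
    (hf0 : ‖f.coeff 0‖ = 1)
    (hP : ∀ j, ‖(f ^ m * g).coeff j‖ ≤ 1) (hP0 : 1 ≤ ‖(f ^ m * g).coeff 0‖)
    (z : ℂ) (hz : z ∈ f.roots) (hz1 : ‖z‖ < 1) :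
    f.mahlerMeasure ^ (2 * m) * ((m * innerCount f : ℕ) : ℝ) ^ (m * innerCount f) ≤
      (((m * innerCount f : ℕ) : ℝ) + 1) ^ (m * innerCount f + 1) := by
  have hM := one_lt_mahler f hf hf0 z hz hz1
  have hK := innerCount_pos f z hz hz1
  set M := f.mahlerMeasure with hMdef
  set K := innerCount f with hKdef
  set n := m * K with hn
  have hn0 : 0 < n := Nat.mul_pos hm hK
  have hn' : (0 : ℝ) < n := by exact_mod_cast hn0
  set q : ℝ := n / (n + 1) with hq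
  have hq0 : 0 < q := by positivity
  have hq1 : q < 1 := by rw [hq, div_lt_one (by positivity)]; linarith
  set r := √q with hr
  have hr0 : 0 < r := Real.sqrt_pos.mpr hq0
  have hrq : r ^ 2 = q := Real.sq_sqrt hq0.le
  have hr1 : r < 1 := by
    rw [hr, ← Real.sqrt_one]
    exact Real.sqrt_lt_sqrt hq0.le hq1
  have hf0' : f.coeff 0 ≠ 0 := by intro h; rw [h] at hf0; simp at hf0
  have h1 := jensen f g m hf hf0' hP hP0 r hr0 hr1
  have h2 := low_bound f hf hf0 r hr0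
  have h3 : (M * r ^ K) ^ m ≤ (√(1 - r ^ 2))⁻¹ :=
    (pow_le_pow_left₀ (by positivity) h2 m).trans h1
  have hpos : 0 < 1 - r ^ 2 := by rw [hrq]; linarith
  have h4 : ((M * r ^ K) ^ m) ^ 2 ≤ (1 - r ^ 2)⁻¹ := by
    refine (pow_le_pow_left₀ (by positivity) h3 2).trans ?_
    rw [inv_pow, Real.sq_sqrt hpos.le]
  have h5 : ((M * r ^ K) ^ m) ^ 2 = M ^ (2 * m) * q ^ n := by
    rw [← hrq, hn, mul_pow, mul_pow]
    ring
  have h6 : ((1 : ℝ) - r ^ 2)⁻¹ = (n : ℝ) + 1 := by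
    rw [hrq, hq]
    field_simp
    ring
  rw [h5, h6, hq, div_pow] at h4
  have h7 : (0 : ℝ) < (n + 1 : ℝ) ^ n := by positivity
  calc M ^ (2 * m) * (n : ℝ) ^ n = M ^ (2 * m) * ((n : ℝ) ^ n / ((n : ℝ) + 1) ^ n) *
        ((n : ℝ) + 1) ^ n := by field_simp
    _ ≤ ((n : ℝ) + 1) * ((n : ℝ) + 1) ^ n := by
        exact mul_le_mul_of_nonneg_right h4 h7.le
    _ = ((n : ℝ) + 1) ^ (n + 1) := by ring

end Pool.Agent.MZ54
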