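import Mathlib

/-! MP_3149b0: the Jensen bound for multiple zeros. -/

set_option autoImplicit false

namespace Pool.Agent.MZ54

open Polynomial Real

/-- the Mahler measure of `f(rX)` for monic `f`. -/
lemma mahler_scale (f : ℂ[X]) (hf : f.Monic) (r : ℝ) (hr : 0 < r) :
    (f.comp (C (r : ℂ) * X)).mahlerMeasure = (f.roots.map (fun a ↦ max r ‖a‖)).prod := by
  have h1 : f = (f.roots.map (fun a ↦ X - C a)).prod := by
    conv_lhs => rw [(IsAlgClosed.splits f).eq_prod_roots, hf.leadingCoeff]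
    simp
  have h2 : f.comp (C (r : ℂ) * X) = (f.roots.map (fun a ↦ C (r : ℂ) * X + C (-a))).prod := by
    conv_lhs => rw [h1]
    rw [Polynomial.multiset_prod_comp, Multiset.map_map]
    congr 1
    apply Multiset.map_congr rfl
    intro a _
    simp [sub_eq_add_neg]
  rw [h2, prod_mahlerMeasure_eq_mahlerMeasure_prod, Multiset.map_map]
  congr 1
  apply Multiset.map_congr rfl
  intro a _
  have hr0 : (r : ℂ) ≠ 0 := by exact_mod_cast hr.ne'
  show (C (r : ℂ) * X + C (-a)).mahlerMeasure = max r ‖a‖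
  rw [mahlerMeasure_C_mul_X_add_C hr0, norm_neg, Complex.norm_real, Real.norm_eq_abs,
    abs_of_pos hr]

lemma mahler_pow (f : ℂ[X]) (m : ℕ) : (f ^ m).mahlerMeasure = f.mahlerMeasure ^ m := by
  induction m with
  | zero => simp
  | succ n ih => rw [pow_succ, mahlerMeasure_mul, ih, pow_succ]

lemma norm_coeff_zero (f : ℂ[X]) (hf : f.Monic) :
    ‖f.coeff 0‖ = (f.roots.map (fun a ↦ ‖a‖)).prod := by
  have h1 : f = (f.roots.map (fun a ↦ X - C a)).prod := by
    conv_lhs => rw [(IsAlgClosed.splits f).eq_prod_roots, hf.leadingCoeff]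
    simp
  conv_lhs => rw [h1]
  rw [coeff_zero_eq_eval_zero, eval_multiset_prod, Multiset.map_map]
  rw [← coe_nnnorm]
  have : ((f.roots.map (fun a ↦ ‖a‖)).prod : ℝ) = ((f.roots.map (fun a ↦ ‖a‖₊)).prod : NNReal) := by
    push_cast
    rw [Multiset.map_map]
    rfl
  rw [this]
  congr 1
  have h3 := map_multiset_prod (nnnormHom : ℂ →*₀ NNReal)
    (Multiset.map (eval 0 ∘ fun a ↦ X - C a) f.roots)
  have h4 : ‖(Multiset.map (eval 0 ∘ fun a ↦ X - C a) f.roots).prod‖₊ =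
      nnnormHom (Multiset.map (eval 0 ∘ fun a ↦ X - C a) f.roots).prod := rfl
  rw [h4, h3, Multiset.map_map]
  congr 1
  apply Multiset.map_congr rfl
  intro a _
  simp

/-- **Jensen bound.** -/
theorem jensen (f g : ℂ[X]) (m : ℕ) (hf : f.Monic) (hf0 : f.coeff 0 ≠ 0)
    (hP : ∀ j, ‖(f ^ m * g).coeff j‖ ≤ 1) (hP0 : 1 ≤ ‖(f ^ m * g).coeff 0‖)
    (r : ℝ) (hr : 0 < r) (hr1 : r < 1) :
    (f.roots.map (fun a ↦ max 1 (r / ‖a‖))).prod ^ m ≤ (√(1 - r ^ 2))⁻¹ := by
  set P := f ^ m * g with hPdef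
  have hr0 : (r : ℂ) ≠ 0 := by exact_mod_cast hr.ne'
  -- upper bound
  have hup : (P.comp (C (r : ℂ) * X)).mahlerMeasure ≤ (√(1 - r ^ 2))⁻¹ := by
    refine (mahlerMeasure_le_sqrt_sum_sq_norm_coeff _).trans ?_
    rw [← Real.sqrt_inv]
    apply Real.sqrt_le_sqrt
    have h1 : ∀ i ∈ (P.comp (C (r : ℂ) * X)).support,
        ‖(P.comp (C (r : ℂ) * X)).coeff i‖ ^ 2 ≤ (r ^ 2) ^ i := by
      intro i _
      rw [comp_C_mul_X_coeff, norm_mul, norm_pow, Complex.norm_real, Real.norm_eq_abs,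
        abs_of_pos hr, mul_pow, ← pow_mul, ← pow_mul, mul_comm i 2]
      have := hP i
      have h0 : 0 ≤ ‖P.coeff i‖ := norm_nonneg _
      have h2 : 0 ≤ r ^ (2 * i) := by positivity
      nlinarith [mul_le_mul this this h0 (by norm_num : (0:ℝ) ≤ 1)]
    refine (Finset.sum_le_sum h1).trans ?_
    have hr2 : r ^ 2 < 1 := by nlinarith
    have hr20 : 0 ≤ r ^ 2 := by positivity
    calc ∑ i ∈ (P.comp (C (r : ℂ) * X)).support, (r ^ 2) ^ i ≤ ∑' i : ℕ, (r ^ 2) ^ i :=
          (summable_geometric_of_lt_one hr20 hr2).sum_le_tsum _ (fun i _ ↦ by positivity)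
      _ = (1 - r ^ 2)⁻¹ := tsum_geometric_of_lt_one hr20 hr2
  -- lower bound
  have hlow : (f.comp (C (r : ℂ) * X)).mahlerMeasure ^ m * ‖g.coeff 0‖ ≤
      (P.comp (C (r : ℂ) * X)).mahlerMeasure := by
    rw [hPdef, mul_comp, pow_comp, mahlerMeasure_mul]
    rw [mahler_pow]
    have h2 := norm_coeff_le_choose_mul_mahlerMeasure 0 (g.comp (C (r : ℂ) * X))
    simp only [comp_C_mul_X_coeff, pow_zero, mul_one, Nat.choose_zero_right, Nat.cast_one,
      one_mul] at h2
    exact mul_le_mul_of_nonneg_left h2 (pow_nonneg (mahlerMeasure_nonneg _) _)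
  rw [mahler_scale f hf r hr] at hlow
  have hc : (f ^ m * g).coeff 0 = f.coeff 0 ^ m * g.coeff 0 := by
    rw [mul_coeff_zero, coeff_zero_eq_eval_zero, eval_pow, ← coeff_zero_eq_eval_zero]
  rw [hPdef, hc, norm_mul, norm_pow] at hP0
  have hf0' : 0 < ‖f.coeff 0‖ := norm_pos_iff.mpr hf0
  have hroot : ∀ a ∈ f.roots, 0 < ‖a‖ := by
    intro a ha
    rw [norm_pos_iff]
    rintro rfl
    apply hf0
    have := (mem_roots'.mp ha).2
    rwa [IsRoot.def, ← coeff_zero_eq_eval_zero] at this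
  have hprod : (f.roots.map (fun a ↦ max 1 (r / ‖a‖))).prod * ‖f.coeff 0‖ =
      (f.roots.map (fun a ↦ max r ‖a‖)).prod := by
    rw [norm_coeff_zero f hf, ← Multiset.prod_map_mul]
    congr 1
    apply Multiset.map_congr rfl
    intro a ha
    have := hroot a ha
    rw [max_mul_of_nonneg _ _ this.le, one_mul, div_mul_cancel₀ _ this.ne', max_comm]
  calc (f.roots.map (fun a ↦ max 1 (r / ‖a‖))).prod ^ m
      ≤ (f.roots.map (fun a ↦ max 1 (r / ‖a‖))).prod ^ m * (‖f.coeff 0‖ ^ m * ‖g.coeff 0‖) := by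
        apply le_mul_of_one_le_right _ hP0
        apply pow_nonneg
        apply Multiset.prod_nonneg
        intro x hx
        obtain ⟨a, _, rfl⟩ := Multiset.mem_map.mp hx
        exact le_trans zero_le_one (le_max_left _ _)
    _ = (f.roots.map (fun a ↦ max r ‖a‖)).prod ^ m * ‖g.coeff 0‖ := by
        rw [← hprod, mul_pow]; ring
    _ ≤ _ := hlow.trans hup

end Pool.Agent.MZ54
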