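import Mathlib

/-! MP_3149b0: kernel polynomial for the negative binomial weights
`C(j+2,2) q^j` (extremal function of a weighted Bergman space). -/

namespace Pool.Agent.MZ54.Kern

open Polynomial Finset

/-- `Σ_{i<k} C(i+2,2) (1-X)^i` -/
noncomputable def S (k : ℕ) : ℝ[X] := ∑ i ∈ range k, C (((i + 2).choose 2 : ℕ) : ℝ) * (1 - X) ^ i

noncomputable def beta (k i : ℕ) : ℝ := (S k).coeff i

theorem S_deg (k : ℕ) (hk : 1 ≤ k) : (S k).natDegree < k := by
  have h : (S k).natDegree ≤ k - 1 := by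
    unfold S
    apply natDegree_sum_le_of_forall_le
    intro i hi
    have hi' : i < k := mem_range.mp hi
    calc (C (((i + 2).choose 2 : ℕ) : ℝ) * (1 - X) ^ i).natDegree
        ≤ (((1 : ℝ[X]) - X) ^ i).natDegree := natDegree_C_mul_le _ _
      _ ≤ i * ((1 : ℝ[X]) - X).natDegree := natDegree_pow_le
      _ ≤ i * 1 := by
          apply Nat.mul_le_mul_left
          refine (natDegree_sub_le _ _).trans ?_
          simp
      _ ≤ k - 1 := by omega
  omega

theorem choose_two (n : ℕ) : (((n + 2).choose 2 : ℕ) : ℝ) = ((n : ℝ) + 2) * (n + 1) / 2 := by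
  rw [Nat.cast_choose_two]
  push_cast
  ring

/-- truncated expansion of `(1-u)^{-3}` -/
theorem trunc (k : ℕ) (U : ℝ[X]) :
    (1 - U) ^ 3 * ∑ i ∈ range k, C (((i + 2).choose 2 : ℕ) : ℝ) * U ^ i
      = 1 - U ^ k * (C (1 / 2) * ((C (k : ℝ) + 2) * (C (k : ℝ) + 1))
        - C (1 / 2) * (2 * C (k : ℝ) * (C (k : ℝ) + 2)) * U
        + C (1 / 2) * ((C (k : ℝ) + 1) * C (k : ℝ)) * U ^ 2) := by
  have h2 : (C (1 / 2 : ℝ)) * 2 = 1 := by
    have : (2 : ℝ[X]) = C 2 := (map_ofNat C 2).symm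
    rw [this, ← C_mul]
    norm_num
  induction k with
  | zero =>
    simp only [range_zero, sum_empty, mul_zero, pow_zero, Nat.cast_zero, C_0]
    linear_combination h2
  | succ k ih =>
    rw [sum_range_succ, mul_add, ih, choose_two]
    have h1 : (C ((((k : ℝ) + 2) * (k + 1)) / 2) : ℝ[X])
        = C (1 / 2) * ((C (k : ℝ) + 2) * (C (k : ℝ) + 1)) := by
      have e2 : (2 : ℝ[X]) = C 2 := (map_ofNat C 2).symm
      have e1 : (1 : ℝ[X]) = C 1 := C_1.symm
      rw [e2, e1, ← C_add, ← C_add, ← C_mul, ← C_mul]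
      congr 1
      ring
    have h3 : (C (((k + 1 : ℕ) : ℝ)) : ℝ[X]) = C (k : ℝ) + 1 := by
      push_cast
      rw [C_add, C_1]
    rw [h1, h3]
    ring

/-- the polynomial `X^3 S_k` is `≡ 1 mod (X-1)^k` -/
theorem taylor_one (k l : ℕ) (hl : l < k) :
    (taylor 1 (X ^ 3 * S k)).coeff l = if l = 0 then 1 else 0 := by
  have h1 : taylor 1 (X ^ 3 * S k) = (1 - (-X)) ^ 3 *
      ∑ i ∈ range k, C (((i + 2).choose 2 : ℕ) : ℝ) * (-X : ℝ[X]) ^ i := by
    have e1 : (X + C 1 : ℝ[X]) = 1 - (-X) := by rw [C_1]; ring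
    have e2 : ∀ i : ℕ, ((C (((i + 2).choose 2 : ℕ) : ℝ) * (1 - X) ^ i : ℝ[X])).comp (1 - (-X))
        = C (((i + 2).choose 2 : ℕ) : ℝ) * (-X : ℝ[X]) ^ i := by
      intro i
      have e3 : (1 - (1 - -X) : ℝ[X]) = -X := by ring
      rw [mul_comp, C_comp, pow_comp, sub_comp, one_comp, X_comp, e3]
    unfold S
    rw [taylor_apply, e1, mul_comp, pow_comp, X_comp, Polynomial.sum_comp]
    refine congrArg₂ (fun a b : ℝ[X] => a * b) rfl (sum_congr rfl (fun i _ => e2 i))
  rw [h1, trunc k (-X)]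
  have h2 : ∃ T : ℝ[X], (-X : ℝ[X]) ^ k * (C (1 / 2) * ((C (k : ℝ) + 2) * (C (k : ℝ) + 1))
        - C (1 / 2) * (2 * C (k : ℝ) * (C (k : ℝ) + 2)) * (-X)
        + C (1 / 2) * ((C (k : ℝ) + 1) * C (k : ℝ)) * (-X) ^ 2) = X ^ k * T :=
    ⟨(-1) ^ k * (C (1 / 2) * ((C (k : ℝ) + 2) * (C (k : ℝ) + 1))
        - C (1 / 2) * (2 * C (k : ℝ) * (C (k : ℝ) + 2)) * (-X)
        + C (1 / 2) * ((C (k : ℝ) + 1) * C (k : ℝ)) * (-X) ^ 2), by rw [neg_pow]; ring⟩
  obtain ⟨T, hT⟩ := h2
  rw [hT, coeff_sub, coeff_X_pow_mul', if_neg (by omega), sub_zero, coeff_one]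

theorem beta_choose (k l : ℕ) (hk : 1 ≤ k) (hl : l < k) :
    ∑ i ∈ range k, beta k i * (((i + 3).choose l : ℕ) : ℝ) = if l = 0 then 1 else 0 := by
  rw [← taylor_one k l hl, taylor_coeff]
  have h1 : (X ^ 3 * S k : ℝ[X]) = ∑ i ∈ range k, monomial (i + 3) (beta k i) := by
    conv_lhs => rw [as_sum_range' (S k) k (S_deg k hk)]
    rw [mul_sum]
    apply sum_congr rfl
    intro i _
    rw [X_pow_mul_monomial]
    rfl
  rw [h1, map_sum, eval_finsetSum]
  apply sum_congr rfl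
  intro i _
  rw [hasseDeriv_monomial, eval_monomial, one_pow, mul_one, mul_comm]

/-- Lemma B -/
theorem beta_sum (k l : ℕ) (hk : 1 ≤ k) (hl : l < k) :
    ∑ i ∈ range k, beta k i * (((i + 2 + l).choose l : ℕ) : ℝ) = if l = 0 then 1 else 0 := by
  rcases Nat.eq_zero_or_pos l with h0 | hpos
  · subst h0
    have := beta_choose k 0 hk hl
    simpa using this
  · obtain ⟨l', rfl⟩ : ∃ l', l = l' + 1 := ⟨l - 1, by omega⟩
    rw [if_neg (by omega)]
    have hv : ∀ i : ℕ, ((i + 2 + (l' + 1)).choose (l' + 1) : ℕ)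
        = ∑ r ∈ range (l' + 2), (i + 3).choose r * l'.choose (l' + 1 - r) := by
      intro i
      have h1 : i + 2 + (l' + 1) = (i + 3) + l' := by ring
      rw [h1, Nat.add_choose_eq, Finset.Nat.sum_antidiagonal_eq_sum_range_succ_mk]
    have h2 : ∑ i ∈ range k, beta k i * (((i + 2 + (l' + 1)).choose (l' + 1) : ℕ) : ℝ)
        = ∑ r ∈ range (l' + 2), ((l'.choose (l' + 1 - r) : ℕ) : ℝ) *
          ∑ i ∈ range k, beta k i * (((i + 3).choose r : ℕ) : ℝ) := by
      calc ∑ i ∈ range k, beta k i * (((i + 2 + (l' + 1)).choose (l' + 1) : ℕ) : ℝ)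
          = ∑ i ∈ range k, ∑ r ∈ range (l' + 2), ((l'.choose (l' + 1 - r) : ℕ) : ℝ) *
            (beta k i * (((i + 3).choose r : ℕ) : ℝ)) := by
            apply sum_congr rfl
            intro i _
            rw [hv i]
            push_cast
            rw [Finset.mul_sum]
            apply sum_congr rfl
            intro r _
            ring
        _ = ∑ r ∈ range (l' + 2), ∑ i ∈ range k, ((l'.choose (l' + 1 - r) : ℕ) : ℝ) *
            (beta k i * (((i + 3).choose r : ℕ) : ℝ)) := Finset.sum_comm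
        _ = _ := by
            apply sum_congr rfl
            intro r _
            rw [Finset.mul_sum]
    rw [h2]
    apply sum_eq_zero
    intro r hr
    have hr' : r < l' + 2 := mem_range.mp hr
    rcases Nat.eq_zero_or_pos r with h0 | hr0
    · subst h0
      rw [Nat.sub_zero, Nat.choose_succ_self, Nat.cast_zero, zero_mul]
    · rw [beta_choose k r hk (by omega), if_neg (by omega), mul_zero]

end Pool.Agent.MZ54.Kern
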