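import Pool.Agent.MZ54.Base
import Pool.Agent.MZ54.Ineq

/-! MP_3149b0: a multiple zero of an integer polynomial gives a power of the minimal polynomial. -/

set_option autoImplicit false

namespace Pool.Agent.MZ54

open Polynomial

lemma cpx_eq_map_rat (f : ℤ[X]) :
    cpx f = (f.map (Int.castRingHom ℚ)).map (algebraMap ℚ ℂ) := by
  rw [cpx, Polynomial.map_map]
  congr 1

lemma aeval_eq (f : ℤ[X]) (z : ℂ) : aeval z f = (cpx f).eval z := by
  rw [cpx, eval_map, aeval_def, algebraMap_int_eq]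

lemma minpoly_rat (z : ℂ) (hz : IsIntegral ℤ z) :
    minpoly ℚ z = (minpoly ℤ z).map (Int.castRingHom ℚ) := by
  rw [minpoly.isIntegrallyClosed_eq_field_fractions' ℚ hz, algebraMap_int_eq]

lemma cpx_minpoly (z : ℂ) (hz : IsIntegral ℤ z) :
    cpx (minpoly ℤ z) = (minpoly ℚ z).map (algebraMap ℚ ℂ) := by
  rw [cpx_eq_map_rat, minpoly_rat z hz]

lemma sep_minpoly (z : ℂ) (hz : IsIntegral ℤ z) : (cpx (minpoly ℤ z)).Separable := by
  rw [cpx_minpoly z hz]
  have hq : IsIntegral ℚ z := hz.tower_top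
  exact (minpoly.irreducible hq).separable.map

lemma eval_minpoly (z : ℂ) : (cpx (minpoly ℤ z)).eval z = 0 := by
  rw [← aeval_eq, minpoly.aeval]

lemma minpoly_split (z : ℂ) (hz : IsIntegral ℤ z) :
    ∃ h : ℂ[X], cpx (minpoly ℤ z) = (X - C z) * h ∧ ¬ (X - C z) ∣ h := by
  obtain ⟨h, hh⟩ := (dvd_iff_isRoot.mpr (eval_minpoly z) : X - C z ∣ cpx (minpoly ℤ z))
  refine ⟨h, hh, ?_⟩
  rintro ⟨q, hq⟩
  have hs := sep_minpoly z hz
  rw [hh, hq, ← mul_assoc] at hs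
  have h1 := hs.of_mul_left
  have h2 := h1.squarefree
  have h3 := h2 (X - C z) (dvd_refl _)
  exact (irreducible_X_sub_C z).not_isUnit h3

theorem minpoly_pow_dvd (z : ℂ) (hz : IsIntegral ℤ z) (m : ℕ) :
    ∀ P : ℤ[X], (X - C z) ^ m ∣ cpx P → (minpoly ℤ z) ^ m ∣ P := by
  obtain ⟨h, hh, hndvd⟩ := minpoly_split z hz
  induction m with
  | zero => intro P _; simp
  | succ m ih =>
    intro P hP
    have h1 : X - C z ∣ cpx P := (dvd_pow_self _ (Nat.succ_ne_zero m)).trans hP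
    have h2 : aeval z P = 0 := by rw [aeval_eq]; exact dvd_iff_isRoot.mp h1
    obtain ⟨Q, hQ⟩ := minpoly.isIntegrallyClosed_dvd hz h2
    have h3 : (X - C z) ^ m ∣ h * cpx Q := by
      have h4 : cpx P = (X - C z) * (h * cpx Q) := by
        rw [← mul_assoc, ← hh, hQ, cpx, cpx, cpx, Polynomial.map_mul]
      rw [h4, pow_succ'] at hP
      exact (mul_dvd_mul_iff_left (X_sub_C_ne_zero z)).mp hP
    have h5 := (prime_X_sub_C z).pow_dvd_of_dvd_mul_left m hndvd h3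
    obtain ⟨R, hR⟩ := ih Q h5
    exact ⟨R, by rw [hQ, hR]; ring⟩

/-- removing the power of `X` -/
lemma remove_X (P : ℤ[X]) (hP : P ≠ 0) :
    ∃ (j : ℕ) (P1 : ℤ[X]), P = X ^ j * P1 ∧ P1.coeff 0 ≠ 0 ∧ ∀ i, P1.coeff i = P.coeff (i + j) := by
  obtain ⟨Q, hQ, hnd⟩ := exists_eq_pow_rootMultiplicity_mul_and_not_dvd P hP 0
  rw [C_0, sub_zero] at hQ hnd
  generalize rootMultiplicity 0 P = e at hQ
  refine ⟨e, Q, hQ, ?_, ?_⟩
  · intro h
    exact hnd (X_dvd_iff.mpr h)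
  · intro i
    conv_rhs => rw [hQ]
    rw [mul_comm, coeff_mul_X_pow]

theorem int_version (P : ℤ[X]) (hP : P ≠ 0)
    (hc : ∀ j, P.coeff j = -1 ∨ P.coeff j = 0 ∨ P.coeff j = 1)
    (z : ℂ) (hz0 : 0 < ‖z‖) (hz1 : ‖z‖ < 1) (m : ℕ) (hm : 0 < m)
    (hdvd : (X - C z) ^ m ∣ cpx P) :
    IsIntegral ℤ z ∧ (minpoly ℤ z).Monic ∧ ‖(cpx (minpoly ℤ z)).coeff 0‖ = 1 ∧
    z ∈ (cpx (minpoly ℤ z)).roots ∧
    Mz z ^ m ≤ 1 + innerCount (cpx (minpoly ℤ z)) / Real.log (Mz z) := by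
  have hzne : z ≠ 0 := norm_pos_iff.mp hz0
  obtain ⟨j, P1, hP1, h0, hcoef⟩ := remove_X P hP
  have hc1 : ∀ i, P1.coeff i = -1 ∨ P1.coeff i = 0 ∨ P1.coeff i = 1 := by
    intro i; rw [hcoef i]; exact hc _
  have hP1ne : P1 ≠ 0 := by rintro rfl; simp at h0
  have hdvd1 : (X - C z) ^ m ∣ cpx P1 := by
    rw [hP1, cpx, Polynomial.map_mul, Polynomial.map_pow, map_X] at hdvd
    refine (prime_X_sub_C z).pow_dvd_of_dvd_mul_left m ?_ hdvd
    intro h
    have := dvd_iff_isRoot.mp h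
    rw [IsRoot.def, eval_pow, eval_X] at this
    exact pow_ne_zero j hzne this
  -- integrality
  have hroot : aeval z P1 = 0 := by
    rw [aeval_eq]
    exact dvd_iff_isRoot.mp ((dvd_pow_self _ hm.ne').trans hdvd1)
  have hlead : P1.leadingCoeff = 1 ∨ P1.leadingCoeff = -1 := by
    have h1 : P1.leadingCoeff ≠ 0 := leadingCoeff_ne_zero.mpr hP1ne
    rcases hc1 P1.natDegree with h | h | h
    · right; exact h
    · exact absurd h h1
    · left; exact h
  have hint : IsIntegral ℤ z := by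
    rcases hlead with h | h
    · exact ⟨P1, h, by rwa [aeval_def] at hroot⟩
    · refine ⟨-P1, by rw [Monic, leadingCoeff_neg, h, neg_neg], ?_⟩
      rw [← aeval_def, map_neg, hroot, neg_zero]
  have hmon := minpoly.monic hint
  obtain ⟨Q, hQ⟩ := minpoly_pow_dvd z hint m P1 hdvd1
  have hQ' : cpx (minpoly ℤ z) ^ m * cpx Q = cpx P1 := by
    rw [hQ, cpx, cpx, cpx, Polynomial.map_mul, Polynomial.map_pow]
  have h1 : P1.coeff 0 = 1 ∨ P1.coeff 0 = -1 := by
    rcases hc1 0 with h | h | h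
    · right; exact h
    · exact absurd h h0
    · left; exact h
  have hunit : IsUnit ((minpoly ℤ z).coeff 0) := by
    have h2 : (minpoly ℤ z).coeff 0 ∣ P1.coeff 0 := by
      have h3 : minpoly ℤ z ∣ P1 := (dvd_pow_self _ hm.ne').trans ⟨Q, hQ⟩
      obtain ⟨R, hR⟩ := h3
      rw [hR, mul_coeff_zero]
      exact dvd_mul_right _ _
    apply isUnit_of_dvd_unit h2
    rcases h1 with h | h <;> rw [h]
    · exact isUnit_one
    · exact isUnit_one.neg
  have hnorm : ‖(cpx (minpoly ℤ z)).coeff 0‖ = 1 := by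
    rw [cpx, coeff_map]
    rcases Int.isUnit_iff.mp hunit with h | h <;> rw [h] <;> simp
  have hmonC : (cpx (minpoly ℤ z)).Monic := hmon.map _
  have hzr : z ∈ (cpx (minpoly ℤ z)).roots := by
    rw [mem_roots hmonC.ne_zero]
    exact eval_minpoly z
  refine ⟨hint, hmon, hnorm, hzr, ?_⟩
  refine mult_bound (cpx (minpoly ℤ z)) (cpx Q) m hmonC hnorm ?_ ?_ z hzr hz1
  · intro i
    rw [hQ', cpx, coeff_map]
    rcases hc1 i with h | h | h <;> rw [h] <;> simp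
  · rw [hQ', cpx, coeff_map]
    rcases h1 with h | h <;> rw [h] <;> simp

end Pool.Agent.MZ54
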