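import Pool.Agent.MZ54.Mult
import Pool.Agent.MZ54.Ineq2

/-! MP_3149b0: data of a multiple zero of a `{-1,0,1}` polynomial; complex polynomials. -/

set_option autoImplicit false

namespace Pool.Agent.MZ54

open Polynomial

theorem int_data (P : ℤ[X]) (hP : P ≠ 0)
    (hc : ∀ j, P.coeff j = -1 ∨ P.coeff j = 0 ∨ P.coeff j = 1)
    (z : ℂ) (hz0 : 0 < ‖z‖) (hz1 : ‖z‖ < 1) (m : ℕ) (hm : 0 < m)
    (hdvd : (X - C z) ^ m ∣ cpx P) :
    IsIntegral ℤ z ∧ (minpoly ℤ z).Monic ∧ ‖(cpx (minpoly ℤ z)).coeff 0‖ = 1 ∧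
    z ∈ (cpx (minpoly ℤ z)).roots ∧
    ∃ g : ℂ[X], (∀ j, ‖(cpx (minpoly ℤ z) ^ m * g).coeff j‖ ≤ 1) ∧
      1 ≤ ‖(cpx (minpoly ℤ z) ^ m * g).coeff 0‖ := by
  have hzne : z ≠ 0 := norm_pos_iff.mp hz0
  obtain ⟨j, P1, hP1, h0, hcoef⟩ := remove_X P hP
  have hc1 : ∀ i, P1.coeff i = -1 ∨ P1.coeff i = 0 ∨ P1.coeff i = 1 := by
    intro i; rw [hcoef i]; exact hc _
  have hP1ne : P1 ≠ 0 := by rintro rfl; simp at h0
  have hdvd1 : (X - C z) ^ m ∣ cpx P1 := by
    rw [hP1, cpx, Polynomial.map_mul, Polynomial.map_pow, map_X] at hdvd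
    refine (prime_X_sub_C z).pow_dvd_of_dvd_mul_left m ?_ hdvd
    intro h
    have := dvd_iff_isRoot.mp h
    rw [IsRoot.def, eval_pow, eval_X] at this
    exact pow_ne_zero j hzne this
  -- integrality
  have hroot : aeval z P1 = 0 := by
    rw [aeval_eq]
    exact dvd_iff_isRoot.mp ((dvd_pow_self _ hm.ne').trans hdvd1)
  have hlead : P1.leadingCoeff = 1 ∨ P1.leadingCoeff = -1 := by
    have h1 : P1.leadingCoeff ≠ 0 := leadingCoeff_ne_zero.mpr hP1ne
    rcases hc1 P1.natDegree with h | h | h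
    · right; exact h
    · exact absurd h h1
    · left; exact h
  have hint : IsIntegral ℤ z := by
    rcases hlead with h | h
    · exact ⟨P1, h, by rwa [aeval_def] at hroot⟩
    · refine ⟨-P1, by rw [Monic, leadingCoeff_neg, h, neg_neg], ?_⟩
      rw [← aeval_def, map_neg, hroot, neg_zero]
  have hmon := minpoly.monic hint
  obtain ⟨Q, hQ⟩ := minpoly_pow_dvd z hint m P1 hdvd1
  have hQ' : cpx (minpoly ℤ z) ^ m * cpx Q = cpx P1 := by
    rw [hQ, cpx, cpx, cpx, Polynomial.map_mul, Polynomial.map_pow]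
  have h1 : P1.coeff 0 = 1 ∨ P1.coeff 0 = -1 := by
    rcases hc1 0 with h | h | h
    · right; exact h
    · exact absurd h h0
    · left; exact h
  have hunit : IsUnit ((minpoly ℤ z).coeff 0) := by
    have h2 : (minpoly ℤ z).coeff 0 ∣ P1.coeff 0 := by
      have h3 : minpoly ℤ z ∣ P1 := (dvd_pow_self _ hm.ne').trans ⟨Q, hQ⟩
      obtain ⟨R, hR⟩ := h3
      rw [hR, mul_coeff_zero]
      exact dvd_mul_right _ _
    apply isUnit_of_dvd_unit h2
    rcases h1 with h | h <;> rw [h]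
    · exact isUnit_one
    · exact isUnit_one.neg
  have hnorm : ‖(cpx (minpoly ℤ z)).coeff 0‖ = 1 := by
    rw [cpx, coeff_map]
    rcases Int.isUnit_iff.mp hunit with h | h <;> rw [h] <;> simp
  have hmonC : (cpx (minpoly ℤ z)).Monic := hmon.map _
  have hzr : z ∈ (cpx (minpoly ℤ z)).roots := by
    rw [mem_roots hmonC.ne_zero]
    exact eval_minpoly z
  refine ⟨hint, hmon, hnorm, hzr, cpx Q, ?_, ?_⟩
  · intro i
    rw [hQ', cpx, coeff_map]
    rcases hc1 i with h | h | h <;> rw [h] <;> simp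
  · rw [hQ', cpx, coeff_map]
    rcases h1 with h | h <;> rw [h] <;> simp

/-- the data for a complex polynomial with coefficients in `{-1,0,1}` -/
theorem complex_data (p : ℂ[X]) (hp : p ≠ 0) (hc : ∀ i : ℕ, p.coeff i ∈ ({-1, 0, 1} : Set ℂ))
    (z : ℂ) (hz0 : 0 < ‖z‖) (hz1 : ‖z‖ < 1) (hz : p.eval z = 0) :
    0 < p.rootMultiplicity z ∧
    IsIntegral ℤ z ∧ (minpoly ℤ z).Monic ∧ ‖(cpx (minpoly ℤ z)).coeff 0‖ = 1 ∧
    z ∈ (cpx (minpoly ℤ z)).roots ∧
    ∃ g : ℂ[X], (∀ j, ‖(cpx (minpoly ℤ z) ^ p.rootMultiplicity z * g).coeff j‖ ≤ 1) ∧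
      1 ≤ ‖(cpx (minpoly ℤ z) ^ p.rootMultiplicity z * g).coeff 0‖ := by
  have hlift : ∃ P : ℤ[X], cpx P = p := by
    have h1 : p ∈ lifts (Int.castRingHom ℂ) := by
      rw [lifts_iff_coeff_lifts]
      intro n
      rcases hc n with h | h | h
      · exact ⟨-1, by rw [h]; simp⟩
      · exact ⟨0, by rw [h]; simp⟩
      · exact ⟨1, by rw [h]; simp⟩
    exact (mem_lifts p).mp h1
  obtain ⟨P, hPp⟩ := hlift
  have hP : P ≠ 0 := by
    rintro rfl
    apply hp
    rw [← hPp, cpx, Polynomial.map_zero]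
  have hcP : ∀ j, P.coeff j = -1 ∨ P.coeff j = 0 ∨ P.coeff j = 1 := by
    intro j
    have h1 : ((P.coeff j : ℤ) : ℂ) = p.coeff j := by rw [← hPp, cpx, coeff_map]; rfl
    rcases hc j with h | h | h
    · left
      rw [h] at h1
      exact_mod_cast h1
    · right; left
      rw [h] at h1
      exact_mod_cast h1
    · right; right
      rw [h] at h1
      exact_mod_cast h1
  have hm : 0 < p.rootMultiplicity z := (rootMultiplicity_pos hp).mpr hz
  have hdvd : (X - C z) ^ p.rootMultiplicity z ∣ cpx P := by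
    rw [hPp]; exact pow_rootMultiplicity_dvd p z
  exact ⟨hm, int_data P hP hcP z hz0 hz1 _ hm hdvd⟩

/-- the number of conjugates in the open unit disc -/
lemma ncard_eq_innerCount (z : ℂ) (hint : IsIntegral ℤ z) :
    {w : ℂ | aeval w (minpoly ℤ z) = 0 ∧ ‖w‖ < 1}.ncard = innerCount (cpx (minpoly ℤ z)) := by
  classical
  have hmonC : (cpx (minpoly ℤ z)).Monic := (minpoly.monic hint).map _
  have hnd : (cpx (minpoly ℤ z)).roots.Nodup := nodup_roots (sep_minpoly z hint)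
  have h1 : {w : ℂ | aeval w (minpoly ℤ z) = 0 ∧ ‖w‖ < 1} =
      (((cpx (minpoly ℤ z)).roots.filter (fun a ↦ ‖a‖ < 1)).toFinset : Set ℂ) := by
    ext w
    simp only [Set.mem_ofPred_eq, Finset.mem_coe, Multiset.mem_toFinset, Multiset.mem_filter]
    rw [mem_roots hmonC.ne_zero, IsRoot.def, aeval_eq]
  rw [h1, Set.ncard_coe_finset, Multiset.toFinset_card_of_nodup (hnd.filter _), innerCount,
    Multiset.countP_eq_card_filter]

end Pool.Agent.MZ54
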