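import Pool.Agent.MZ54.Smyth
import Pool.Agent.MZ54.Mult2

/-! MP_3149b0: multiplicity of zeros with non-reciprocal minimal polynomial. -/

set_option autoImplicit false

namespace Pool.Agent.MZ54

open Polynomial

lemma numeric_nonrec (m K : ℕ) (hm : 0 < m) (hK : 0 < K) (M : ℝ) (hM : 1 < M)
    (hS : M ≤ 2 * (M ^ 2 - 1))
    (h : M ^ (2 * m) * ((m * K : ℕ) : ℝ) ^ (m * K) ≤
      (((m * K : ℕ) : ℝ) + 1) ^ (m * K + 1)) :
    (m : ℝ) < 6 + 3 * Real.log K := by
  have hM128 : (1.28 : ℝ) ≤ M := by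
    by_contra hcon
    push Not at hcon
    nlinarith
  set n := m * K with hn
  have hn0 : 0 < n := Nat.mul_pos hm hK
  have hn' : (0 : ℝ) < n := by exact_mod_cast hn0
  have hm' : (1 : ℝ) ≤ m := by exact_mod_cast hm
  have hK' : (1 : ℝ) ≤ K := by exact_mod_cast hK
  have hL : 0 ≤ Real.log K := Real.log_nonneg hK'
  -- take logarithms
  have h1 : (2 * m : ℝ) * Real.log M + n * Real.log n ≤ (n + 1) * Real.log (n + 1) := by
    have h2 := Real.log_le_log (by positivity) h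
    rw [Real.log_mul (by positivity) (by positivity), Real.log_pow, Real.log_pow,
      Real.log_pow] at h2
    push_cast at h2
    exact h2
  have h2 : n * (Real.log (n + 1) - Real.log n) ≤ 1 := by
    rw [← Real.log_div (by positivity) hn'.ne']
    have h3 : Real.log (((n : ℝ) + 1) / n) ≤ ((n : ℝ) + 1) / n - 1 :=
      Real.log_le_sub_one_of_pos (by positivity)
    have h4 : ((n : ℝ) + 1) / n - 1 = 1 / n := by field_simp; ring
    rw [h4] at h3
    calc n * Real.log (((n : ℝ) + 1) / n) ≤ n * (1 / n) :=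
          mul_le_mul_of_nonneg_left h3 hn'.le
      _ = 1 := by field_simp
  have h3 : (2 * m : ℝ) * Real.log M ≤ 1 + Real.log (n + 1) := by linarith
  have h4 : Real.log ((n : ℝ) + 1) ≤ Real.log (m + 1) + Real.log K := by
    rw [← Real.log_mul (by positivity) (by positivity)]
    apply Real.log_le_log (by positivity)
    rw [hn]
    push_cast
    nlinarith
  -- log (m + 1) ≤ (m + 1) / e ^ 2 + 1
  have hE : (7.389 : ℝ) < Real.exp 2 := by
    have h5 : Real.exp 2 = Real.exp 1 ^ 2 := by rw [← Real.exp_nat_mul]; norm_num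
    rw [h5]
    have h6 := Real.exp_one_gt_d9
    nlinarith
  have h5 : Real.log ((m : ℝ) + 1) ≤ ((m : ℝ) + 1) / 7.389 + 1 := by
    have h6 : Real.log (((m : ℝ) + 1) / Real.exp 2) ≤ ((m : ℝ) + 1) / Real.exp 2 - 1 :=
      Real.log_le_sub_one_of_pos (by positivity)
    rw [Real.log_div (by positivity) (Real.exp_ne_zero _), Real.log_exp] at h6
    have h7 : ((m : ℝ) + 1) / Real.exp 2 ≤ ((m : ℝ) + 1) / 7.389 :=
      div_le_div_of_nonneg_left (by positivity) (by norm_num) hE.le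
    linarith
  -- lower bound for log M
  have h6 : (0.2462 : ℝ) ≤ Real.log M := by
    have h7 : (2 : ℝ) ^ 27 ≤ M ^ 76 := by
      calc (2 : ℝ) ^ 27 ≤ 1.28 ^ 76 := by norm_num
        _ ≤ M ^ 76 := pow_le_pow_left₀ (by norm_num) hM128 76
    have h8 := Real.log_le_log (by norm_num) h7
    rw [Real.log_pow, Real.log_pow] at h8
    have h9 := Real.log_two_gt_d9
    push_cast at h8
    linarith
  have h7 : (2 * m : ℝ) * 0.2462 ≤ 2 * m * Real.log M :=
    mul_le_mul_of_nonneg_left h6 (by positivity)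
  have h8 : ((m : ℝ) + 1) / 7.389 ≤ ((m : ℝ) + 1) * 0.13534 := by
    rw [div_le_iff₀ (by norm_num)]
    nlinarith
  nlinarith

theorem nonrec_bound (p : ℂ[X]) (hp : p ≠ 0) (hc : ∀ i : ℕ, p.coeff i ∈ ({-1, 0, 1} : Set ℂ))
    (z : ℂ) (hz0 : 0 < ‖z‖) (hz1 : ‖z‖ < 1) (hz : p.eval z = 0)
    (hnr : aeval z⁻¹ (minpoly ℤ z) ≠ 0)
    (K : ℕ) (hK : K = {w : ℂ | aeval w (minpoly ℤ z) = 0 ∧ ‖w‖ < 1}.ncard) :
    (p.rootMultiplicity z : ℝ) < 6 + 3 * Real.log K := by
  obtain ⟨hm0, hint, hmon, hnorm, hzr, g, hg1, hg2⟩ := complex_data p hp hc z hz0 hz1 hz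
  have hmonC : (cpx (minpoly ℤ z)).Monic := hmon.map _
  have hM1 := one_lt_mahler _ hmonC hnorm z hzr hz1
  have hb := mult_bound_sharp (cpx (minpoly ℤ z)) g _ hm0 hmonC hnorm hg1 hg2 z hzr hz1
  have hKpos := innerCount_pos _ z hzr hz1
  rw [← ncard_eq_innerCount z hint, ← hK] at hb hKpos
  have hzne : z ≠ 0 := norm_pos_iff.mp hz0
  have hrec : ∀ c : ℤ, minpoly ℤ z ≠ C c * (minpoly ℤ z).reverse := by
    intro c hcon
    apply hnr
    have : Invertible z := invertibleOfNonzero hzne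
    have h1 : eval₂ (algebraMap ℤ ℂ) (⅟z) (minpoly ℤ z).reverse = 0 := by
      rw [eval₂_reverse_eq_zero_iff, ← aeval_def, minpoly.aeval]
    rw [invOf_eq_inv] at h1
    rw [hcon, map_mul, aeval_def, aeval_def, h1, mul_zero]
  have hsm := Schur.smyth_weak (minpoly ℤ z) hmon hnorm hM1 hrec
  exact numeric_nonrec _ K hm0 hKpos _ hM1 hsm hb

end Pool.Agent.MZ54
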