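import Pool.Agent.MZ54.Single48

/-! MP_3149b0: numerics for the single zero bound. -/

namespace Pool.Agent.MZ54.Kern

open Polynomial Finset

/-- `G_k(q) = 1 - K_k(q)` -/
noncomputable def G (k : ℕ) (q : ℝ) : ℝ :=
  q ^ k * (((k : ℝ) + 2) * (k + 1) / 2 - k * (k + 2) * q + (k + 1) * k / 2 * q ^ 2)

theorem G_mono (k : ℕ) (hk : 1 ≤ k) : MonotoneOn (G k) (Set.Icc 0 1) := by
  obtain ⟨m, rfl⟩ : ∃ m, k = m + 1 := ⟨k - 1, by omega⟩
  have hder : ∀ q : ℝ, HasDerivAt (G (m + 1))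
      (((m : ℝ) + 1) * (m + 2) * (m + 3) / 2 * q ^ m * (1 - q) ^ 2) q := by
    intro q
    have h1 : HasDerivAt (fun q : ℝ => q ^ (m + 1)) (((m + 1 : ℕ) : ℝ) * q ^ m) q := by
      have := hasDerivAt_pow (m + 1) q
      simpa using this
    have h2 : HasDerivAt (fun q : ℝ => ((((m + 1 : ℕ) : ℝ) + 2) * (((m + 1 : ℕ) : ℝ) + 1) / 2
        - ((m + 1 : ℕ) : ℝ) * (((m + 1 : ℕ) : ℝ) + 2) * q
        + (((m + 1 : ℕ) : ℝ) + 1) * ((m + 1 : ℕ) : ℝ) / 2 * q ^ 2))
        (0 - ((m + 1 : ℕ) : ℝ) * (((m + 1 : ℕ) : ℝ) + 2) * 1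
          + (((m + 1 : ℕ) : ℝ) + 1) * ((m + 1 : ℕ) : ℝ) / 2 * (2 * q)) q := by
      refine ((hasDerivAt_const q _).sub ((hasDerivAt_id q).const_mul _)).add ?_
      have h3 := (hasDerivAt_pow 2 q).const_mul
        ((((m + 1 : ℕ) : ℝ) + 1) * ((m + 1 : ℕ) : ℝ) / 2)
      simpa using h3
    have h3 := h1.mul h2
    refine h3.congr_deriv ?_
    push_cast
    ring
  apply monotoneOn_of_deriv_nonneg (convex_Icc 0 1)
  · exact fun q _ => (hder q).continuousAt.continuousWithinAt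
  · exact fun q _ => (hder q).differentiableAt.differentiableWithinAt
  · intro q hq
    rw [interior_Icc] at hq
    rw [(hder q).deriv]
    have := hq.1.le
    positivity

theorem log_one_sub_le {u : ℝ} (hu0 : 0 ≤ u) (hu1 : u < 1) :
    Real.log (1 - u) ≤ -(u + u ^ 2 / 2 + u ^ 3 / 3) := by
  have h1 := Real.hasSum_pow_div_log_of_abs_lt_one (x := u) (by rw [abs_of_nonneg hu0]; exact hu1)
  have h2 := sum_le_hasSum (range 3) (fun j _ => by positivity) h1
  simp only [sum_range_succ, sum_range_zero] at h2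
  norm_num at h2
  linarith

theorem exp_268 : (14.5424 : ℝ) < Real.exp 2.68 := by
  have h1 : Real.exp 2.68 = Real.exp 1 ^ 2 * Real.exp 0.085 ^ 8 := by
    rw [← Real.exp_nat_mul, ← Real.exp_nat_mul, ← Real.exp_add]
    norm_num
  rw [h1]
  have h2 := Real.exp_one_gt_d9
  have h3 := Real.quadratic_le_exp_of_nonneg (show (0 : ℝ) ≤ 0.085 by norm_num)
  calc (14.5424 : ℝ) < 2.7182818283 ^ 2 * (1 + 0.085 + 0.085 ^ 2 / 2) ^ 8 := by norm_num
    _ ≤ Real.exp 1 ^ 2 * Real.exp 0.085 ^ 8 := by gcongr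

theorem G_small (k : ℕ) (hk : 1 ≤ k) : G k (1 - 2.68 / ((k : ℝ) + 2)) < 1 / 2 := by
  by_cases h5 : k ≤ 5
  · have : k = 1 ∨ k = 2 ∨ k = 3 ∨ k = 4 ∨ k = 5 := by omega
    rcases this with rfl | rfl | rfl | rfl | rfl <;> unfold G <;> norm_num
  · have hk6 : 6 ≤ k := by omega
    have hk6' : (6 : ℝ) ≤ k := by exact_mod_cast hk6
    set u : ℝ := 2.68 / ((k : ℝ) + 2) with hu
    have hu0 : 0 < u := by positivity
    have hu1 : u ≤ 0.335 := by
      rw [hu, div_le_iff₀ (by linarith)]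
      linarith
    have hku : (k : ℝ) * u = 2.68 - 2 * u := by
      have : u * ((k : ℝ) + 2) = 2.68 := by rw [hu]; field_simp
      linarith
    set b : ℝ := 7.2712 - 6.02 * u + u ^ 2 with hb
    have hbpos : 0 < b := by nlinarith
    have hGb : G k (1 - u) = (1 - u) ^ k * b := by
      unfold G
      congr 1
      have h1 : ((k : ℝ) + 2) * (k + 1) / 2 - k * (k + 2) * (1 - u) + (k + 1) * k / 2 * (1 - u) ^ 2
          = 1 + (k * u) + ((k * u) ^ 2 + (k * u) * u) / 2 := by ring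
      rw [h1, hku, hb]
      ring
    rw [hGb]
    have hpos : 0 < (1 - u) ^ k * b := by
      have : 0 < 1 - u := by linarith
      positivity
    rw [← Real.log_lt_log_iff hpos (by norm_num)]
    rw [Real.log_mul (by have : 0 < 1 - u := by linarith
                         positivity) hbpos.ne', Real.log_pow]
    have hl := log_one_sub_le hu0.le (by linarith)
    have h1 : (k : ℝ) * Real.log (1 - u) ≤ (k : ℝ) * (-(u + u ^ 2 / 2 + u ^ 3 / 3)) :=
      mul_le_mul_of_nonneg_left hl (by linarith)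
    have h2 : (k : ℝ) * (-(u + u ^ 2 / 2 + u ^ 3 / 3))
        = -((2.68 - 2 * u) * (1 + u / 2 + u ^ 2 / 3)) := by
      rw [← hku]; ring
    have h3 : Real.log b ≤ Real.log 7.2712 + (b / 7.2712 - 1) := by
      have h4 := Real.log_le_sub_one_of_pos (show 0 < b / 7.2712 by positivity)
      rw [Real.log_div hbpos.ne' (by norm_num)] at h4
      linarith
    have h4 : Real.log 7.2712 + Real.log 2 < 2.68 := by
      rw [← Real.log_mul (by norm_num) (by norm_num)]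
      rw [Real.log_lt_iff_lt_exp (by norm_num)]
      have := exp_268
      norm_num at this ⊢
      linarith
    have h5 : Real.log (1 / 2) = -Real.log 2 := by
      rw [Real.log_div (by norm_num) (by norm_num), Real.log_one]
      ring
    rw [h5]
    have h6 : b / 7.2712 - 1 = (-6.02 * u + u ^ 2) / 7.2712 := by
      rw [hb]; field_simp; ring
    have h7 : -((2.68 - 2 * u) * (1 + u / 2 + u ^ 2 / 3)) + (-6.02 * u + u ^ 2) / 7.2712
        ≤ -2.68 := by
      have : -((2.68 - 2 * u) * (1 + u / 2 + u ^ 2 / 3)) + (-6.02 * u + u ^ 2) / 7.2712 + 2.68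
          = u * (0.66 - 6.02 / 7.2712 + (1 - 2.68 / 3 + 1 / 7.2712) * u + 2 / 3 * u ^ 2) := by
        ring
      have h8 : 0.66 - 6.02 / 7.2712 + (1 - 2.68 / 3 + 1 / 7.2712) * u + 2 / 3 * u ^ 2 ≤ (0 : ℝ) := by
        have h9 : u ^ 2 ≤ 0.335 * u := by nlinarith
        nlinarith
      have h10 := mul_nonpos_of_nonneg_of_nonpos hu0.le h8
      linarith
    linarith

/-- if `G_k(q) ≥ 1/2` then `(k+2)(1-q) ≤ 2.68` -/
theorem bound_of_G (k : ℕ) (hk : 1 ≤ k) {q : ℝ} (hq0 : 0 ≤ q) (hG : 1 / 2 ≤ G k q) :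
    ((k : ℝ) + 2) * (1 - q) ≤ 2.68 := by
  by_contra hcon
  push Not at hcon
  have hk' : (1 : ℝ) ≤ k := by exact_mod_cast hk
  have h1 : q < 1 - 2.68 / ((k : ℝ) + 2) := by
    have : 2.68 / ((k : ℝ) + 2) < 1 - q := by
      rw [div_lt_iff₀ (by linarith)]
      linarith
    linarith
  have h2 : 1 - 2.68 / ((k : ℝ) + 2) ≤ 1 := by
    have : 0 < 2.68 / ((k : ℝ) + 2) := by positivity
    linarith
  have h3 := G_mono k hk ⟨hq0, by linarith⟩ ⟨by linarith, h2⟩ h1.le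
  have h4 := G_small k hk
  linarith

/-- **single zero bound** -/
theorem single_bound (p : ℂ[X]) (h0 : ‖p.coeff 0‖ = 1) (hc : ∀ j, ‖p.coeff j‖ ≤ 1) (z : ℂ)
    (hz : ‖z‖ < 1) (k : ℕ) (hk : 1 ≤ k) (hd : (X - C z) ^ k ∣ p) :
    ((k : ℝ) + 2) * (1 - ‖z‖ ^ 2) ≤ 2.68 ∧ (k : ℝ) * (1 - ‖z‖) < 1.34 := by
  have h1 := single p h0 hc z hz k hk hd
  rw [kernel_closed] at h1
  have h2 : ((k : ℝ) + 2) * (1 - ‖z‖ ^ 2) ≤ 2.68 := by
    apply bound_of_G k hk (by positivity)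
    unfold G
    linarith
  refine ⟨h2, ?_⟩
  by_contra hcon
  push Not at hcon
  have h3 : 0 < 1 - ‖z‖ := by linarith
  have h4 : ((k : ℝ) + 2) * (1 - ‖z‖ ^ 2)
      = ((k : ℝ) * (1 - ‖z‖) + 2 * (1 - ‖z‖)) * (2 - (1 - ‖z‖)) := by ring
  rw [h4] at h2
  have h5 : 1 - ‖z‖ ≤ 1 := by have := norm_nonneg z; linarith
  nlinarith

end Pool.Agent.MZ54.Kern
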