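import Pool.Agent.MZ54.Kern48

/-! MP_3149b0: the kernel polynomial `P_k(j)` and its norm. -/

namespace Pool.Agent.MZ54.Kern

open Polynomial Finset

/-- kernel polynomial, as a function on `ℕ` -/
noncomputable def Pk (k : ℕ) (q : ℝ) (j : ℕ) : ℝ :=
  ∑ i ∈ range k, beta k i * (1 - q) ^ (3 + i) *
    ((((j + 2 + i).choose i : ℕ) : ℝ) / (((i + 2).choose 2 : ℕ) : ℝ))

theorem choose_pos' (i : ℕ) : (0 : ℝ) < (((i + 2).choose 2 : ℕ) : ℝ) := by
  have : 0 < (i + 2).choose 2 := Nat.choose_pos (by omega)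
  exact_mod_cast this

theorem Pk_mul (k : ℕ) (q : ℝ) (j : ℕ) :
    Pk k q j * (((j + 2).choose 2 : ℕ) : ℝ)
      = ∑ i ∈ range k, beta k i * (1 - q) ^ (3 + i) * (((j + (2 + i)).choose (2 + i) : ℕ) : ℝ) := by
  unfold Pk
  rw [sum_mul]
  apply sum_congr rfl
  intro i _
  have h1 : (j + 2 + i).choose i * (j + 2).choose 2 = (i + 2).choose 2 * (j + (2 + i)).choose (2 + i) := by
    have h2 := Nat.choose_mul (n := j + (2 + i)) (k := 2 + i) (s := i) (by omega)
    have h3 : j + (2 + i) - i = j + 2 := by omega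
    have h4 : 2 + i - i = 2 := by omega
    have h5 : (2 + i).choose i = (i + 2).choose 2 := by
      rw [show 2 + i = i + 2 by ring]
      have := Nat.choose_symm_add (a := i) (b := 2)
      exact this
    have h6 : j + 2 + i = j + (2 + i) := by ring
    rw [h3, h4, h5] at h2
    rw [h6, ← h2]
    ring
  have h2 : (((j + 2 + i).choose i : ℕ) : ℝ) * (((j + 2).choose 2 : ℕ) : ℝ)
      = (((i + 2).choose 2 : ℕ) : ℝ) * (((j + (2 + i)).choose (2 + i) : ℕ) : ℝ) := by
    exact_mod_cast h1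
  have h3 := choose_pos' i
  have h4 : (((j + 2 + i).choose i : ℕ) : ℝ) / (((i + 2).choose 2 : ℕ) : ℝ)
      * (((j + 2).choose 2 : ℕ) : ℝ) = (((j + (2 + i)).choose (2 + i) : ℕ) : ℝ) := by
    rw [div_mul_eq_mul_div, h2, mul_div_assoc, mul_comm, div_mul_cancel₀ _ h3.ne']
  rw [mul_assoc, h4]

theorem hasSum_choose (m l : ℕ) {q : ℝ} (hq0 : 0 ≤ q) (hq1 : q < 1) :
    HasSum (fun j : ℕ => (((j + m).choose m : ℕ) : ℝ) * ((j.choose l : ℕ) : ℝ) * q ^ j)
      ((((m + l).choose l : ℕ) : ℝ) * q ^ l / (1 - q) ^ (m + l + 1)) := by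
  have hn : ‖q‖ < 1 := by rw [Real.norm_of_nonneg hq0]; exact hq1
  have h1 := hasSum_choose_mul_geometric_of_norm_lt_one (m + l) hn
  have h2 := h1.mul_left ((((m + l).choose l : ℕ) : ℝ) * q ^ l)
  have h3 : HasSum (fun j : ℕ => (fun j : ℕ => (((j + m).choose m : ℕ) : ℝ) *
      ((j.choose l : ℕ) : ℝ) * q ^ j) (j + l))
      ((((m + l).choose l : ℕ) : ℝ) * q ^ l * (1 / (1 - q) ^ (m + l + 1))) := by
    suffices hf : (fun j : ℕ => (fun j : ℕ => (((j + m).choose m : ℕ) : ℝ) *
        ((j.choose l : ℕ) : ℝ) * q ^ j) (j + l)) = (fun j : ℕ =>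
        (((m + l).choose l : ℕ) : ℝ) * q ^ l *
          ((((j + (m + l)).choose (m + l) : ℕ) : ℝ) * q ^ j)) by
      rw [hf]; exact h2
    funext j
    have h4 : (j + l + m).choose m * (j + l).choose l
        = (m + l).choose l * (j + (m + l)).choose (m + l) := by
      have h5 := Nat.choose_mul (n := j + (m + l)) (k := m + l) (s := m) (by omega)
      have h6 : j + (m + l) - m = j + l := by omega
      have h7 : m + l - m = l := by omega
      rw [h6, h7] at h5
      have h8 : (m + l).choose m = (m + l).choose l := Nat.choose_symm_add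
      rw [h8] at h5
      have h9 : j + l + m = j + (m + l) := by ring
      rw [h9, ← h5]
      ring
    have h5 : (((j + l + m).choose m : ℕ) : ℝ) * (((j + l).choose l : ℕ) : ℝ)
        = (((m + l).choose l : ℕ) : ℝ) * (((j + (m + l)).choose (m + l) : ℕ) : ℝ) := by
      exact_mod_cast h4
    simp only
    rw [h5, pow_add]
    ring
  have h4 : Function.Injective (fun j : ℕ => j + l) := fun a b h => by simpa using h
  have h5 := (h4.hasSum_iff (f := fun j : ℕ => (((j + m).choose m : ℕ) : ℝ) *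
      ((j.choose l : ℕ) : ℝ) * q ^ j) (a := (((m + l).choose l : ℕ) : ℝ) * q ^ l *
      (1 / (1 - q) ^ (m + l + 1))) (by
        intro j hj
        have : j < l := by
          by_contra h
          exact hj ⟨j - l, Nat.sub_add_cancel (by omega)⟩
        rw [Nat.choose_eq_zero_of_lt this, Nat.cast_zero, mul_zero, zero_mul])).mp h3
  rw [mul_one_div] at h5
  exact h5

/-- reproducing property -/
theorem repro (k l : ℕ) (hk : 1 ≤ k) (hl : l < k) {q : ℝ} (hq0 : 0 ≤ q) (hq1 : q < 1) :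
    HasSum (fun j : ℕ => Pk k q j * (((j + 2).choose 2 : ℕ) : ℝ) * ((j.choose l : ℕ) : ℝ) * q ^ j)
      (if l = 0 then 1 else 0) := by
  have hq : (0 : ℝ) < 1 - q := by linarith
  have h1 : HasSum (fun j : ℕ => ∑ i ∈ range k, beta k i * (1 - q) ^ (3 + i) *
      ((((j + (2 + i)).choose (2 + i) : ℕ) : ℝ) * ((j.choose l : ℕ) : ℝ) * q ^ j))
      (∑ i ∈ range k, beta k i * (1 - q) ^ (3 + i) *
        ((((2 + i + l).choose l : ℕ) : ℝ) * q ^ l / (1 - q) ^ (2 + i + l + 1))) :=
    hasSum_sum (fun i _ => (hasSum_choose (2 + i) l hq0 hq1).mul_left _)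
  have h2 : (∑ i ∈ range k, beta k i * (1 - q) ^ (3 + i) *
        ((((2 + i + l).choose l : ℕ) : ℝ) * q ^ l / (1 - q) ^ (2 + i + l + 1)))
      = (if l = 0 then 1 else 0) := by
    have h3 : ∀ i ∈ range k, beta k i * (1 - q) ^ (3 + i) *
        ((((2 + i + l).choose l : ℕ) : ℝ) * q ^ l / (1 - q) ^ (2 + i + l + 1))
        = (q ^ l / (1 - q) ^ l) * (beta k i * (((i + 2 + l).choose l : ℕ) : ℝ)) := by
      intro i _
      have h4 : 2 + i + l = i + 2 + l := by ring
      have h5 : (1 - q) ^ (2 + i + l + 1) = (1 - q) ^ (3 + i) * (1 - q) ^ l := by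
        rw [← pow_add]; congr 1; ring
      rw [h5, h4]
      field_simp
    rw [sum_congr rfl h3, ← mul_sum, beta_sum k l hk hl]
    split_ifs with h
    · subst h
      simp
    · simp
  rw [h2] at h1
  convert h1 using 2 with j
  rw [Pk_mul, sum_mul, sum_mul]
  apply sum_congr rfl
  intro i _
  ring

/-- Newton coefficients of the kernel polynomial -/
noncomputable def del (k : ℕ) (q : ℝ) (l : ℕ) : ℝ :=
  ∑ i ∈ range k, beta k i * (1 - q) ^ (3 + i) *
    ((if l ≤ i then (((2 + i).choose (i - l) : ℕ) : ℝ) else 0) / (((i + 2).choose 2 : ℕ) : ℝ))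

theorem Pk_newton (k : ℕ) (q : ℝ) (j : ℕ) :
    Pk k q j = ∑ l ∈ range k, del k q l * ((j.choose l : ℕ) : ℝ) := by
  unfold Pk del
  simp_rw [sum_mul]
  rw [sum_comm]
  apply sum_congr rfl
  intro i hi
  have hi' : i < k := mem_range.mp hi
  have h1 : (((j + 2 + i).choose i : ℕ) : ℝ) = ∑ l ∈ range k,
      (if l ≤ i then (((2 + i).choose (i - l) : ℕ) : ℝ) else 0) * ((j.choose l : ℕ) : ℝ) := by
    have h2 : (j + 2 + i).choose i = ∑ l ∈ range (i + 1), j.choose l * (2 + i).choose (i - l) := by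
      rw [show j + 2 + i = j + (2 + i) by ring, Nat.add_choose_eq,
        Finset.Nat.sum_antidiagonal_eq_sum_range_succ_mk]
    rw [h2]
    push_cast
    have h3 : range (i + 1) ⊆ range k := by
      intro x hx
      rw [mem_range] at hx ⊢
      omega
    rw [← sum_subset h3]
    · apply sum_congr rfl
      intro l hl
      have : l ≤ i := by
        have := mem_range.mp hl
        omega
      rw [if_pos this]
      ring
    · intro l _ hl
      have : ¬ l ≤ i := by
        intro h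
        apply hl
        rw [mem_range]
        omega
      rw [if_neg this, zero_mul]
  rw [h1, sum_div, mul_sum]
  apply sum_congr rfl
  intro l _
  ring

theorem Pk_zero_eq (k : ℕ) (hk : 1 ≤ k) (q : ℝ) : Pk k q 0 = del k q 0 := by
  rw [Pk_newton]
  rw [sum_eq_single 0]
  · simp
  · intro l _ hl
    rw [Nat.choose_eq_zero_of_lt (by omega), Nat.cast_zero, mul_zero]
  · intro h
    exact absurd (mem_range.mpr (by omega)) h

/-- the norm of the kernel -/
theorem norm_kernel (k : ℕ) (hk : 1 ≤ k) {q : ℝ} (hq0 : 0 ≤ q) (hq1 : q < 1) :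
    HasSum (fun j : ℕ => Pk k q j ^ 2 * (((j + 2).choose 2 : ℕ) : ℝ) * q ^ j) (Pk k q 0) := by
  have h1 : HasSum (fun j : ℕ => ∑ l ∈ range k, del k q l *
      (Pk k q j * (((j + 2).choose 2 : ℕ) : ℝ) * ((j.choose l : ℕ) : ℝ) * q ^ j))
      (∑ l ∈ range k, del k q l * (if l = 0 then 1 else 0)) :=
    hasSum_sum (fun l hl => (repro k l hk (mem_range.mp hl) hq0 hq1).mul_left _)
  have h2 : (∑ l ∈ range k, del k q l * (if l = 0 then (1 : ℝ) else 0)) = Pk k q 0 := by
    rw [Pk_zero_eq k hk, sum_eq_single 0]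
    · simp
    · intro l _ hl
      rw [if_neg hl, mul_zero]
    · intro h
      exact absurd (mem_range.mpr (by omega)) h
  rw [h2] at h1
  convert h1 using 2 with j
  rw [sq]
  nth_rewrite 1 [Pk_newton]
  rw [sum_mul, sum_mul, sum_mul]
  apply sum_congr rfl
  intro l _
  ring

theorem Pk_zero (k : ℕ) (hk : 1 ≤ k) (q : ℝ) :
    Pk k q 0 = (1 - q) ^ 3 * ∑ i ∈ range k, (((i + 2).choose 2 : ℕ) : ℝ) * q ^ i := by
  have h1 : Pk k q 0 = ∑ i ∈ range k, beta k i * (1 - q) ^ (3 + i) := by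
    unfold Pk
    apply sum_congr rfl
    intro i _
    have h2 : (0 + 2 + i).choose i = (i + 2).choose 2 := by
      rw [show 0 + 2 + i = i + 2 by ring]
      exact Nat.choose_symm_add
    rw [h2, div_self (choose_pos' i).ne', mul_one]
  have h2 : (S k).eval (1 - q) = ∑ i ∈ range k, (((i + 2).choose 2 : ℕ) : ℝ) * q ^ i := by
    unfold S
    rw [eval_finsetSum]
    apply sum_congr rfl
    intro i _
    rw [eval_mul, eval_C, eval_pow, eval_sub, eval_one, eval_X]
    congr 2
    ring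
  rw [h1, ← h2, eval_eq_sum_range' (S_deg k hk), mul_sum]
  apply sum_congr rfl
  intro i _
  unfold beta
  rw [pow_add]
  ring

end Pool.Agent.MZ54.Kern
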