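import Pool.Agent.MZ54.Base

/-! MP_3149b0: contraction property of finite Blaschke products, by power series. -/

set_option autoImplicit false

namespace Pool.Agent.MZ54.Schur

open PowerSeries

/-- truncated square norm -/
noncomputable def sqn (k : ℕ) (u : ℂ⟦X⟧) : ℝ := ∑ j ∈ Finset.range (k + 1), ‖coeff j u‖ ^ 2

lemma sq_identity (u v a : ℂ) :
    ‖u - (starRingEnd ℂ) a * v‖ ^ 2 - ‖v - a * u‖ ^ 2 =
      (1 - ‖a‖ ^ 2) * (‖u‖ ^ 2 - ‖v‖ ^ 2) := by
  simp only [← Complex.normSq_eq_norm_sq, Complex.normSq_apply, Complex.sub_re, Complex.sub_im,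
    Complex.mul_re, Complex.mul_im, Complex.conj_re, Complex.conj_im]
  ring

/-- the factor `X - a` -/
noncomputable def lin (a : ℂ) : ℂ⟦X⟧ := X - C a

/-- the factor `1 - ā X` -/
noncomputable def lin' (a : ℂ) : ℂ⟦X⟧ := 1 - C ((starRingEnd ℂ) a) * X

lemma coeff_zero_lin (a : ℂ) (w : ℂ⟦X⟧) : coeff 0 (lin a * w) = -a * coeff 0 w := by
  rw [lin, sub_mul, map_sub, coeff_zero_X_mul, coeff_C_mul]
  ring

lemma coeff_succ_lin (a : ℂ) (w : ℂ⟦X⟧) (n : ℕ) :
    coeff (n + 1) (lin a * w) = coeff n w - a * coeff (n + 1) w := by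
  rw [lin, sub_mul, map_sub, coeff_succ_X_mul, coeff_C_mul]

lemma coeff_zero_lin' (a : ℂ) (w : ℂ⟦X⟧) : coeff 0 (lin' a * w) = coeff 0 w := by
  rw [lin', sub_mul, one_mul, mul_assoc, map_sub, coeff_C_mul, coeff_zero_X_mul]
  ring

lemma coeff_succ_lin' (a : ℂ) (w : ℂ⟦X⟧) (n : ℕ) :
    coeff (n + 1) (lin' a * w) = coeff (n + 1) w - (starRingEnd ℂ) a * coeff n w := by
  rw [lin', sub_mul, one_mul, mul_assoc, map_sub, coeff_C_mul, coeff_succ_X_mul]

lemma sqn_diff (a : ℂ) (w : ℂ⟦X⟧) (k : ℕ) :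
    sqn k (lin' a * w) - sqn k (lin a * w) = (1 - ‖a‖ ^ 2) * ‖coeff k w‖ ^ 2 := by
  induction k with
  | zero =>
    simp only [sqn, zero_add, Finset.sum_range_one]
    rw [coeff_zero_lin, coeff_zero_lin', norm_mul, norm_neg]
    ring
  | succ k ih =>
    have h1 : sqn (k + 1) (lin' a * w) - sqn (k + 1) (lin a * w) =
        (sqn k (lin' a * w) - sqn k (lin a * w)) +
        (‖coeff (k + 1) (lin' a * w)‖ ^ 2 - ‖coeff (k + 1) (lin a * w)‖ ^ 2) := by
      simp only [sqn]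
      rw [Finset.sum_range_succ _ (k + 1), Finset.sum_range_succ _ (k + 1)]
      ring
    rw [h1, ih, coeff_succ_lin, coeff_succ_lin', sq_identity]
    ring

lemma sqn_le (a : ℂ) (ha : ‖a‖ ≤ 1) (w : ℂ⟦X⟧) (k : ℕ) :
    sqn k (lin a * w) ≤ sqn k (lin' a * w) := by
  have h := sqn_diff a w k
  have h2 : 0 ≤ (1 - ‖a‖ ^ 2) * ‖coeff k w‖ ^ 2 := by
    apply mul_nonneg _ (by positivity)
    nlinarith [norm_nonneg a]
  linarith

lemma sqn_ge (a : ℂ) (ha : 1 ≤ ‖a‖) (w : ℂ⟦X⟧) (k : ℕ) :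
    sqn k (lin' a * w) ≤ sqn k (lin a * w) := by
  have h := sqn_diff a w k
  have h2 : 0 ≤ (‖a‖ ^ 2 - 1) * ‖coeff k w‖ ^ 2 := by
    apply mul_nonneg _ (by positivity)
    nlinarith [norm_nonneg a]
  nlinarith

lemma sqn_prod_le (s : Multiset ℂ) (hs : ∀ a ∈ s, ‖a‖ ≤ 1) (k : ℕ) :
    ∀ w : ℂ⟦X⟧, sqn k ((s.map lin).prod * w) ≤ sqn k ((s.map lin').prod * w) := by
  induction s using Multiset.induction_on with
  | empty => intro w; simp
  | cons a s ih =>
    intro w
    have ih' := ih (fun b hb ↦ hs b (Multiset.mem_cons_of_mem hb))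
    rw [Multiset.map_cons, Multiset.prod_cons, Multiset.map_cons, Multiset.prod_cons]
    calc sqn k (lin a * (s.map lin).prod * w) = sqn k (lin a * ((s.map lin).prod * w)) := by
          rw [mul_assoc]
      _ ≤ sqn k (lin' a * ((s.map lin).prod * w)) :=
          sqn_le a (hs a (Multiset.mem_cons_self a s)) _ k
      _ = sqn k ((s.map lin).prod * (lin' a * w)) := by congr 1; ring
      _ ≤ sqn k ((s.map lin').prod * (lin' a * w)) := ih' _
      _ = sqn k (lin' a * (s.map lin').prod * w) := by congr 1; ring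

lemma sqn_prod_ge (s : Multiset ℂ) (hs : ∀ a ∈ s, 1 ≤ ‖a‖) (k : ℕ) :
    ∀ w : ℂ⟦X⟧, sqn k ((s.map lin').prod * w) ≤ sqn k ((s.map lin).prod * w) := by
  induction s using Multiset.induction_on with
  | empty => intro w; simp
  | cons a s ih =>
    intro w
    have ih' := ih (fun b hb ↦ hs b (Multiset.mem_cons_of_mem hb))
    rw [Multiset.map_cons, Multiset.prod_cons, Multiset.map_cons, Multiset.prod_cons]
    calc sqn k (lin' a * (s.map lin').prod * w) = sqn k (lin' a * ((s.map lin').prod * w)) := by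
          rw [mul_assoc]
      _ ≤ sqn k (lin a * ((s.map lin').prod * w)) :=
          sqn_ge a (hs a (Multiset.mem_cons_self a s)) _ k
      _ = sqn k ((s.map lin').prod * (lin a * w)) := by congr 1; ring
      _ ≤ sqn k ((s.map lin).prod * (lin a * w)) := ih' _
      _ = sqn k (lin a * (s.map lin).prod * w) := by congr 1; ring

/-- Schur's inequality from the contraction property. -/
lemma schur (F : ℂ⟦X⟧) (k : ℕ) (hk : 0 < k) (hF : ∀ v : ℂ⟦X⟧, sqn k (F * v) ≤ sqn k v)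
    (h0 : ‖coeff 0 F‖ < 1) : ‖coeff k F‖ ≤ 1 - ‖coeff 0 F‖ ^ 2 := by
  set x := ‖coeff 0 F‖ with hx
  set y := ‖coeff k F‖ with hy
  have hx0 : 0 ≤ x := norm_nonneg _
  have hy0 : 0 ≤ y := norm_nonneg _
  set α : ℂ := ((1 - x ^ 2 : ℝ) : ℂ) with hα
  set β : ℂ := (starRingEnd ℂ) (coeff 0 F) * coeff k F with hβ
  have hv := hF (C α + C β * X ^ k)
  have hc0 : coeff 0 (F * (C α + C β * X ^ k)) = α * coeff 0 F := by
    rw [mul_add, map_add, mul_comm F (C α), coeff_C_mul]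
    have : F * (C β * X ^ k) = X ^ k * (F * C β) := by ring
    rw [this, coeff_X_pow_mul', if_neg (by omega), add_zero]
  have hck : coeff k (F * (C α + C β * X ^ k)) = coeff k F := by
    rw [mul_add, map_add, mul_comm F (C α), coeff_C_mul]
    have : F * (C β * X ^ k) = X ^ k * (C β * F) := by ring
    rw [this, coeff_X_pow_mul', if_pos le_rfl, Nat.sub_self, coeff_C_mul, hβ, hα]
    have h1 : (starRingEnd ℂ) (coeff 0 F) * coeff k F * coeff 0 F = (x ^ 2 : ℝ) * coeff k F := by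
      have h2 : (starRingEnd ℂ) (coeff 0 F) * coeff 0 F = ((x ^ 2 : ℝ) : ℂ) := by
        rw [mul_comm, Complex.mul_conj, Complex.normSq_eq_norm_sq]
      linear_combination (coeff k F) * h2
    rw [h1]
    push_cast
    ring
  have hlow : ‖α * coeff 0 F‖ ^ 2 + ‖coeff k F‖ ^ 2 ≤ sqn k (F * (C α + C β * X ^ k)) := by
    rw [← hc0, ← hck, sqn]
    have hsub : ({0, k} : Finset ℕ) ⊆ Finset.range (k + 1) := by
      intro i hi
      simp only [Finset.mem_insert, Finset.mem_singleton] at hi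
      rw [Finset.mem_range]
      omega
    have h1 := Finset.sum_le_sum_of_subset_of_nonneg (f := fun j ↦
      ‖coeff j (F * (C α + C β * X ^ k))‖ ^ 2) hsub (fun _ _ _ ↦ by positivity)
    rw [Finset.sum_pair (by omega)] at h1
    exact h1
  have hup : sqn k (C α + C β * X ^ k) = ‖α‖ ^ 2 + ‖β‖ ^ 2 := by
    rw [sqn]
    have hcoef : ∀ j ∈ Finset.range (k + 1), ‖coeff j (C α + C β * X ^ k)‖ ^ 2 =
        (if j = 0 then ‖α‖ ^ 2 else 0) + (if j = k then ‖β‖ ^ 2 else 0) := by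
      intro j _
      rw [map_add, coeff_C, coeff_C_mul_X_pow]
      by_cases h0 : j = 0
      · subst h0
        rw [if_pos rfl, if_neg (by omega), if_pos rfl, if_neg (by omega), add_zero, add_zero]
      · rw [if_neg h0, if_neg h0, zero_add, zero_add]
        by_cases h1 : j = k
        · rw [if_pos h1, if_pos h1]
        · rw [if_neg h1, if_neg h1]; simp
    rw [Finset.sum_congr rfl hcoef, Finset.sum_add_distrib, Finset.sum_ite_eq',
      Finset.sum_ite_eq', if_pos (by simp), if_pos (by simp)]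
  rw [hup] at hv
  have hα' : ‖α‖ = 1 - x ^ 2 := by
    rw [hα, Complex.norm_real, Real.norm_eq_abs, abs_of_nonneg]
    nlinarith
  have hβ' : ‖β‖ = x * y := by rw [hβ, norm_mul, Complex.norm_conj]
  have hfin := hlow.trans hv
  rw [norm_mul, hα', hβ', ← hx, ← hy] at hfin
  have hpos : 0 < 1 - x ^ 2 := by nlinarith
  have h3 : y ^ 2 * (1 - x ^ 2) ≤ (1 - x ^ 2) ^ 2 * (1 - x ^ 2) := by nlinarith
  have h4 : y ^ 2 ≤ (1 - x ^ 2) ^ 2 := le_of_mul_le_mul_right h3 hpos
  exact (pow_le_pow_iff_left₀ hy0 hpos.le two_ne_zero).mp h4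

end Pool.Agent.MZ54.Schur
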