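import Pool.Agent.MZ54.Pk48

/-! MP_3149b0: multiplicity of a single zero. -/

namespace Pool.Agent.MZ54.Kern

open Polynomial Finset

theorem orth (p : ℂ[X]) (z : ℂ) (k l : ℕ) (hl : l < k) (hd : (X - C z) ^ k ∣ p) :
    ∑ j ∈ range (p.natDegree + 1), p.coeff j * z ^ j * ((j.choose l : ℕ) : ℂ) = 0 := by
  have h1 : (hasseDeriv l p).eval z = 0 := by
    rw [← taylor_coeff]
    have h2 : (X : ℂ[X]) ^ k ∣ taylor z p := by
      have := X_sub_C_pow_dvd_iff.mp hd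
      exact this
    exact X_pow_dvd_iff.mp h2 l hl
  have h2 : (hasseDeriv l p).eval z * z ^ l
      = ∑ j ∈ range (p.natDegree + 1), p.coeff j * z ^ j * ((j.choose l : ℕ) : ℂ) := by
    rw [hasseDeriv_apply, sum_over_range _ (by intro n; simp), eval_finsetSum, sum_mul]
    apply sum_congr rfl
    intro j _
    rw [eval_monomial]
    by_cases hj : l ≤ j
    · have h3 : z ^ j = z ^ (j - l) * z ^ l := by
        rw [← pow_add]
        congr 1
        omega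
      rw [h3]
      ring
    · rw [Nat.choose_eq_zero_of_lt (by omega)]
      simp
  rw [← h2, h1, zero_mul]

theorem orth_Pk (p : ℂ[X]) (z : ℂ) (k : ℕ) (q : ℝ) (hd : (X - C z) ^ k ∣ p) :
    ∑ j ∈ range (p.natDegree + 1), p.coeff j * z ^ j * ((Pk k q j : ℝ) : ℂ) = 0 := by
  have h1 : ∀ j ∈ range (p.natDegree + 1), p.coeff j * z ^ j * ((Pk k q j : ℝ) : ℂ)
      = ∑ l ∈ range k, ((del k q l : ℝ) : ℂ) * (p.coeff j * z ^ j * ((j.choose l : ℕ) : ℂ)) := by
    intro j _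
    rw [Pk_newton, Complex.ofReal_sum, mul_sum]
    apply sum_congr rfl
    intro l _
    push_cast
    ring
  rw [sum_congr rfl h1, sum_comm]
  apply sum_eq_zero
  intro l hl
  rw [← mul_sum, orth p z k l (mem_range.mp hl) hd, mul_zero]

theorem sum_weights (n : ℕ) :
    ∑ j ∈ range n, (1 : ℝ) / ((((j + 1) + 2).choose 2 : ℕ) : ℝ) ≤ 1 := by
  have h : ∑ j ∈ range n, (1 : ℝ) / ((((j + 1) + 2).choose 2 : ℕ) : ℝ)
      = 1 - 2 / ((n : ℝ) + 2) := by
    induction n with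
    | zero => simp
    | succ n ih =>
      rw [sum_range_succ, ih, choose_two]
      push_cast
      field_simp
      ring
  rw [h]
  have : (0 : ℝ) < 2 / ((n : ℝ) + 2) := by positivity
  linarith

/-- **single zero, exact form** -/
theorem single (p : ℂ[X]) (h0 : ‖p.coeff 0‖ = 1) (hc : ∀ j, ‖p.coeff j‖ ≤ 1) (z : ℂ)
    (hz : ‖z‖ < 1) (k : ℕ) (hk : 1 ≤ k) (hd : (X - C z) ^ k ∣ p) :
    (1 - ‖z‖ ^ 2) ^ 3 * ∑ i ∈ range k, (((i + 2).choose 2 : ℕ) : ℝ) * (‖z‖ ^ 2) ^ i ≤ 1 / 2 := by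
  set q := ‖z‖ ^ 2 with hq
  have hq0 : 0 ≤ q := by positivity
  have hq1 : q < 1 := by
    rw [hq]
    exact pow_lt_one₀ (norm_nonneg _) hz (by norm_num)
  rw [← Pk_zero k hk q]
  set K := Pk k q 0 with hK
  have hK0 : 0 ≤ K := by
    rw [hK, Pk_zero k hk q]
    have : 0 ≤ 1 - q := by linarith
    exact mul_nonneg (pow_nonneg this 3)
      (sum_nonneg (fun i _ => mul_nonneg (choose_pos' i).le (pow_nonneg hq0 i)))
  have h1 := orth_Pk p z k q hd
  rw [sum_range_succ'] at h1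
  have h2 : K ≤ ∑ j ∈ range p.natDegree, ‖z‖ ^ (j + 1) * |Pk k q (j + 1)| := by
    have h3 : p.coeff 0 * z ^ 0 * ((Pk k q 0 : ℝ) : ℂ)
        = -∑ j ∈ range p.natDegree, p.coeff (j + 1) * z ^ (j + 1) * ((Pk k q (j + 1) : ℝ) : ℂ) := by
      linear_combination h1
    have h4 : K = ‖p.coeff 0 * z ^ 0 * ((Pk k q 0 : ℝ) : ℂ)‖ := by
      rw [norm_mul, norm_mul, h0, pow_zero, norm_one, Complex.norm_real, Real.norm_eq_abs,
        abs_of_nonneg hK0]
      ring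
    rw [h4, h3, norm_neg]
    refine (norm_sum_le _ _).trans (sum_le_sum ?_)
    intro j _
    rw [norm_mul, norm_mul, norm_pow, Complex.norm_real, Real.norm_eq_abs]
    have h5 := hc (j + 1)
    have h6 : 0 ≤ ‖z‖ ^ (j + 1) * |Pk k q (j + 1)| :=
      mul_nonneg (pow_nonneg (norm_nonneg _) _) (abs_nonneg _)
    calc ‖p.coeff (j + 1)‖ * ‖z‖ ^ (j + 1) * |Pk k q (j + 1)|
        = ‖p.coeff (j + 1)‖ * (‖z‖ ^ (j + 1) * |Pk k q (j + 1)|) := by ring
      _ ≤ 1 * (‖z‖ ^ (j + 1) * |Pk k q (j + 1)|) := mul_le_mul_of_nonneg_right h5 h6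
      _ = _ := one_mul _
  have hnn : ∀ j : ℕ, 0 ≤ Pk k q j ^ 2 * (((j + 2).choose 2 : ℕ) : ℝ) * q ^ j := fun j =>
    mul_nonneg (mul_nonneg (sq_nonneg _) (choose_pos' j).le) (pow_nonneg hq0 _)
  have hcs : (∑ j ∈ range p.natDegree, ‖z‖ ^ (j + 1) * |Pk k q (j + 1)|) ^ 2
      ≤ (∑ j ∈ range p.natDegree, (1 : ℝ) / ((((j + 1) + 2).choose 2 : ℕ) : ℝ))
        * ∑ j ∈ range p.natDegree, Pk k q (j + 1) ^ 2 * ((((j + 1) + 2).choose 2 : ℕ) : ℝ)
          * q ^ (j + 1) := by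
    apply sum_sq_le_sum_mul_sum_of_sq_le_mul
    · intro j _
      exact (one_div_pos.mpr (choose_pos' (j + 1))).le
    · intro j _
      exact hnn (j + 1)
    · intro j _
      have h5 := choose_pos' (j + 1)
      have h6 : (‖z‖ ^ (j + 1)) ^ 2 = q ^ (j + 1) := by
        rw [hq, ← pow_mul, ← pow_mul, mul_comm]
      rw [mul_pow, sq_abs, h6]
      apply le_of_eq
      field_simp
  have hg : ∑ j ∈ range p.natDegree, Pk k q (j + 1) ^ 2 * ((((j + 1) + 2).choose 2 : ℕ) : ℝ)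
          * q ^ (j + 1) ≤ K - K ^ 2 := by
    have h5 := norm_kernel k hk hq0 hq1
    have h6 := sum_le_hasSum (range (p.natDegree + 1)) (fun j _ => hnn j) h5
    rw [sum_range_succ'] at h6
    have h7 : Pk k q 0 ^ 2 * (((0 + 2).choose 2 : ℕ) : ℝ) * q ^ 0 = K ^ 2 := by
      simp [hK]
    rw [h7] at h6
    linarith
  have hsum := sum_weights p.natDegree
  have hf0 : 0 ≤ ∑ j ∈ range p.natDegree, Pk k q (j + 1) ^ 2 *
      ((((j + 1) + 2).choose 2 : ℕ) : ℝ) * q ^ (j + 1) :=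
    sum_nonneg (fun j _ => hnn (j + 1))
  have h8 : K ^ 2 ≤ K - K ^ 2 := by
    have e1 := pow_le_pow_left₀ hK0 h2 2
    have e2 := mul_le_mul_of_nonneg_right hsum hf0
    rw [one_mul] at e2
    exact e1.trans (hcs.trans (e2.trans hg))
  by_contra hcon
  push Not at hcon
  nlinarith

/-- closed form of the kernel value -/
theorem kernel_closed (k : ℕ) (q : ℝ) :
    (1 - q) ^ 3 * ∑ i ∈ range k, (((i + 2).choose 2 : ℕ) : ℝ) * q ^ i
      = 1 - q ^ k * (((k : ℝ) + 2) * (k + 1) / 2 - k * (k + 2) * q + (k + 1) * k / 2 * q ^ 2) := by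
  have h := congrArg (eval q) (trunc k X)
  simp only [eval_mul, eval_pow, eval_sub, eval_one, eval_X, eval_finsetSum, eval_C, eval_add] at h
  have e2 : eval q (2 : ℝ[X]) = 2 := by
    have : (2 : ℝ[X]) = C 2 := (map_ofNat C 2).symm
    rw [this, eval_C]
  rw [e2] at h
  rw [h]
  ring

end Pool.Agent.MZ54.Kern
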