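import Pool.Agent.MZ54.Schur
import Pool.Agent.MZ54.Ineq

/-! MP_3149b0: a lower bound for the Mahler measure of a non-reciprocal integer polynomial. -/

set_option autoImplicit false

namespace Pool.Agent.MZ54.Schur

open Polynomial

lemma reverse_lin (a : ℂ) : (X - C a : ℂ[X]).reverse = 1 - C a * X := by
  ext n
  rw [coeff_reverse, natDegree_X_sub_C]
  rcases n with _ | _ | n
  · simp [revAt_le]
  · simp [revAt_le, coeff_one]
  · rw [revAt_eq_self_of_lt (by omega)]
    simp [coeff_one, coeff_X, coeff_C]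

lemma reverse_prod (s : Multiset ℂ) :
    ((s.map (fun a ↦ X - C a)).prod : ℂ[X]).reverse = (s.map (fun a ↦ 1 - C a * X)).prod := by
  induction s using Multiset.induction_on with
  | empty => simpa using reverse_C (1 : ℂ)
  | cons a s ih =>
    rw [Multiset.map_cons, Multiset.prod_cons, reverse_mul_of_domain, ih, reverse_lin,
      Multiset.map_cons, Multiset.prod_cons]

lemma cpx_reverse (f : ℤ[X]) (hf : f.Monic) : cpx f.reverse = (cpx f).reverse := by
  ext n
  rw [coeff_reverse, cpx, cpx, coeff_map, coeff_map, coeff_reverse, hf.natDegree_map]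

lemma cpx_conj (f : ℤ[X]) : (cpx f).map (starRingEnd ℂ) = cpx f := by
  rw [cpx, Polynomial.map_map]
  congr 1
  exact RingHom.ext_int _ _

lemma coe_prod_lin (s : Multiset ℂ) :
    (((s.map (fun a ↦ X - C a)).prod : ℂ[X]) : PowerSeries ℂ) = (s.map lin).prod := by
  rw [← coeToPowerSeries.ringHom_apply, map_multiset_prod, Multiset.map_map]
  congr 1
  apply Multiset.map_congr rfl
  intro a _
  simp [lin]

lemma coe_prod_lin' (s : Multiset ℂ) :
    (((s.map (fun a ↦ 1 - C ((starRingEnd ℂ) a) * X)).prod : ℂ[X]) : PowerSeries ℂ) =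
      (s.map lin').prod := by
  rw [← coeToPowerSeries.ringHom_apply, map_multiset_prod, Multiset.map_map]
  congr 1
  apply Multiset.map_congr rfl
  intro a _
  simp [lin']

lemma cpx_eq_prod (f : ℤ[X]) (hf : f.Monic) :
    cpx f = ((cpx f).roots.map (fun a ↦ X - C a)).prod := by
  have hm : (cpx f).Monic := hf.map _
  conv_lhs => rw [(IsAlgClosed.splits (cpx f)).eq_prod_roots, hm.leadingCoeff]
  simp

lemma cpx_reverse_eq_prod (f : ℤ[X]) (hf : f.Monic) :
    cpx f.reverse = ((cpx f).roots.map (fun a ↦ 1 - C ((starRingEnd ℂ) a) * X)).prod := by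
  have h1 : cpx f.reverse = ((cpx f).roots.map (fun a ↦ 1 - C a * X)).prod := by
    rw [cpx_reverse f hf]
    conv_lhs => rw [cpx_eq_prod f hf]
    rw [reverse_prod]
  rw [← cpx_conj, h1, Polynomial.map_multiset_prod, Multiset.map_map]
  congr 1
  apply Multiset.map_congr rfl
  intro a _
  simp

lemma constantCoeff_prod_lin (s : Multiset ℂ) :
    ‖PowerSeries.constantCoeff (s.map lin).prod‖ = (s.map (fun a ↦ ‖a‖)).prod := by
  induction s using Multiset.induction_on with
  | empty => simp
  | cons a s ih =>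
    rw [Multiset.map_cons, Multiset.prod_cons, map_mul, norm_mul, ih, Multiset.map_cons,
      Multiset.prod_cons]
    simp [lin]

lemma constantCoeff_prod_lin' (s : Multiset ℂ) :
    PowerSeries.constantCoeff (s.map lin').prod = 1 := by
  induction s using Multiset.induction_on with
  | empty => simp
  | cons a s ih =>
    rw [Multiset.map_cons, Multiset.prod_cons, map_mul, ih]
    simp [lin']

/-- **A weak form of Smyth's theorem.** -/
theorem smyth_weak (f : ℤ[X]) (hf : f.Monic) (h0 : ‖(cpx f).coeff 0‖ = 1)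
    (hM : 1 < (cpx f).mahlerMeasure)
    (hrec : ∀ c : ℤ, f ≠ C c * f.reverse) :
    (cpx f).mahlerMeasure ≤ 2 * ((cpx f).mahlerMeasure ^ 2 - 1) := by
  classical
  set R := (cpx f).roots with hR
  set inn := R.filter (fun a ↦ ‖a‖ < 1) with hinn
  set out := R.filter (fun a ↦ ¬ ‖a‖ < 1) with hout
  have hRsum : inn + out = R := Multiset.filter_add_not _ R
  set A := (inn.map lin).prod with hA
  set A' := (inn.map lin').prod with hA'
  set B := (out.map lin).prod with hB
  set B' := (out.map lin').prod with hB'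
  have hmon : (cpx f).Monic := hf.map _
  have hfAB : ((cpx f : ℂ[X]) : PowerSeries ℂ) = A * B := by
    rw [cpx_eq_prod f hf, coe_prod_lin, ← hR, ← hRsum, Multiset.map_add, Multiset.prod_add]
  have hfAB' : ((cpx f.reverse : ℂ[X]) : PowerSeries ℂ) = A' * B' := by
    rw [cpx_reverse_eq_prod f hf, coe_prod_lin', ← hR, ← hRsum, Multiset.map_add,
      Multiset.prod_add]
  -- the integer series
  set φ : PowerSeries ℤ := (f : PowerSeries ℤ) with hφ
  set ψ : PowerSeries ℤ := (f.reverse : PowerSeries ℤ) with hψ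
  have hψ0 : PowerSeries.constantCoeff ψ = ((1 : ℤˣ) : ℤ) := by
    rw [hψ, Polynomial.constantCoeff_coe, coeff_zero_reverse, hf.leadingCoeff]
    rfl
  set ser := φ * PowerSeries.invOfUnit ψ 1 with hser
  have hserψ : ser * ψ = φ := by
    rw [hser, mul_assoc, PowerSeries.invOfUnit_mul ψ 1 hψ0, mul_one]
  set S := PowerSeries.map (Int.castRingHom ℂ) ser with hS
  have hSeq : S * (A' * B') = A * B := by
    rw [← hfAB, ← hfAB', cpx, cpx, polynomial_map_coe, polynomial_map_coe, hS, ← map_mul, hserψ]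
  -- constant coefficients
  have hinnout : (inn.map (fun a ↦ ‖a‖)).prod * (out.map (fun a ↦ ‖a‖)).prod = 1 := by
    rw [← Multiset.prod_add, ← Multiset.map_add, hRsum, hR, ← norm_coeff_zero (cpx f) hmon, h0]
  have hMout : (cpx f).mahlerMeasure = (out.map (fun a ↦ ‖a‖)).prod := by
    rw [mahler_monic _ hmon, ← hR, ← hRsum, Multiset.map_add, Multiset.prod_add]
    have h1 : (inn.map (fun a ↦ max (1 : ℝ) ‖a‖)).prod = 1 := by
      apply Multiset.prod_eq_one
      intro x hx
      obtain ⟨a, ha, rfl⟩ := Multiset.mem_map.mp hx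
      exact max_eq_left (Multiset.mem_filter.mp ha).2.le
    rw [h1, one_mul]
    congr 1
    apply Multiset.map_congr rfl
    intro a ha
    exact max_eq_right (not_lt.mp (Multiset.mem_filter.mp ha).2)
  set M := (cpx f).mahlerMeasure with hMdef
  have hMpos : 0 < M := by linarith
  have hA'0 : PowerSeries.constantCoeff A' ≠ 0 := by
    rw [hA', constantCoeff_prod_lin']; exact one_ne_zero
  have hBnorm : ‖PowerSeries.constantCoeff B‖ = M := by
    rw [hB, constantCoeff_prod_lin, hMout]
  have hAnorm : ‖PowerSeries.constantCoeff A‖ = M⁻¹ := by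
    rw [hA, constantCoeff_prod_lin]
    rw [← hMout] at hinnout
    exact eq_inv_of_mul_eq_one_left hinnout
  have hB0 : PowerSeries.constantCoeff B ≠ 0 := by
    rw [← norm_pos_iff, hBnorm]; exact hMpos
  set F := A * A'⁻¹ with hF
  set G := B' * B⁻¹ with hG
  have hFA' : F * A' = A := by
    rw [hF, mul_assoc, mul_comm A'⁻¹, PowerSeries.mul_inv_cancel A' hA'0, mul_one]
  have hGB : G * B = B' := by
    rw [hG, mul_assoc, mul_comm B⁻¹, PowerSeries.mul_inv_cancel B hB0, mul_one]
  have hA'ne : A' ≠ 0 := by rintro h; rw [h, map_zero] at hA'0; exact hA'0 rfl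
  have hBne : B ≠ 0 := by rintro h; rw [h, map_zero] at hB0; exact hB0 rfl
  have hFG : F = S * G := by
    apply mul_right_cancel₀ (mul_ne_zero hA'ne hBne)
    calc F * (A' * B) = (F * A') * B := by ring
      _ = S * (A' * B') := by rw [hFA', hSeq]
      _ = S * (A' * (G * B)) := by rw [hGB]
      _ = S * G * (A' * B) := by ring
  have hF0 : ‖PowerSeries.coeff 0 F‖ = M⁻¹ := by
    have h1 : PowerSeries.constantCoeff F * PowerSeries.constantCoeff A' =
        PowerSeries.constantCoeff A := by rw [← map_mul, hFA']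
    rw [hA', constantCoeff_prod_lin', mul_one] at h1
    rw [PowerSeries.coeff_zero_eq_constantCoeff_apply, h1, hAnorm]
  have hG0 : ‖PowerSeries.coeff 0 G‖ = M⁻¹ := by
    have h1 : PowerSeries.constantCoeff G * PowerSeries.constantCoeff B =
        PowerSeries.constantCoeff B' := by rw [← map_mul, hGB]
    rw [hB', constantCoeff_prod_lin'] at h1
    have h2 := congrArg norm h1
    rw [norm_mul, hBnorm, norm_one] at h2
    rw [PowerSeries.coeff_zero_eq_constantCoeff_apply]
    exact eq_inv_of_mul_eq_one_left h2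
  have hMinv : M⁻¹ < 1 := inv_lt_one_of_one_lt₀ hM
  -- contraction
  have hcF : ∀ k, ∀ v : PowerSeries ℂ, sqn k (F * v) ≤ sqn k v := by
    intro k v
    have h1 := sqn_prod_le inn (fun a ha ↦ (Multiset.mem_filter.mp ha).2.le) k (A'⁻¹ * v)
    rw [← hA, ← hA'] at h1
    have h2 : A' * (A'⁻¹ * v) = v := by
      rw [← mul_assoc, PowerSeries.mul_inv_cancel A' hA'0, one_mul]
    rw [h2] at h1
    rwa [hF, mul_assoc]
  have hcG : ∀ k, ∀ v : PowerSeries ℂ, sqn k (G * v) ≤ sqn k v := by
    intro k v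
    have h1 := sqn_prod_ge out (fun a ha ↦ not_lt.mp (Multiset.mem_filter.mp ha).2) k (B⁻¹ * v)
    rw [← hB, ← hB'] at h1
    have h2 : B * (B⁻¹ * v) = v := by
      rw [← mul_assoc, PowerSeries.mul_inv_cancel B hB0, one_mul]
    rw [h2] at h1
    rwa [hG, mul_assoc]
  -- the first nonzero coefficient
  have hex : ∃ k, 0 < k ∧ PowerSeries.coeff k ser ≠ 0 := by
    by_contra hcon
    push Not at hcon
    apply hrec (PowerSeries.coeff 0 ser)
    have h1 : ser = PowerSeries.C (PowerSeries.coeff 0 ser) := by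
      ext n
      rw [PowerSeries.coeff_C]
      split_ifs with h
      · rw [h]
      · exact hcon n (Nat.pos_of_ne_zero h)
    have h2 : φ = PowerSeries.C (PowerSeries.coeff 0 ser) * ψ := by
      rw [← h1, hserψ]
    apply Polynomial.coe_injective ℤ
    rw [Polynomial.coe_mul, Polynomial.coe_C]
    exact h2
  obtain ⟨hkpos, hkne⟩ := Nat.find_spec hex
  set k := Nat.find hex with hkdef
  have hmin : ∀ j, 0 < j → j < k → PowerSeries.coeff j ser = 0 := by
    intro j hj hjk
    by_contra hcon
    exact Nat.find_min hex hjk ⟨hj, hcon⟩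
  have hXk : PowerSeries.X ^ k ∣ ser - PowerSeries.C (PowerSeries.coeff 0 ser) := by
    rw [PowerSeries.X_pow_dvd_iff]
    intro j hj
    rw [map_sub, PowerSeries.coeff_C]
    split_ifs with h
    · rw [h, sub_self]
    · rw [hmin j (Nat.pos_of_ne_zero h) hj, sub_zero]
  obtain ⟨T, hT⟩ := hXk
  have hT0 : PowerSeries.coeff 0 T = PowerSeries.coeff k ser := by
    have h1 := congrArg (PowerSeries.coeff k) hT
    rw [map_sub, PowerSeries.coeff_C, if_neg hkpos.ne', sub_zero, PowerSeries.coeff_X_pow_mul',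
      if_pos le_rfl, Nat.sub_self] at h1
    exact h1.symm
  have hser' : ser = PowerSeries.C (PowerSeries.coeff 0 ser) + PowerSeries.X ^ k * T := by
    rw [← hT]; ring
  have hS' : S = PowerSeries.C ((PowerSeries.coeff 0 ser : ℤ) : ℂ) +
      PowerSeries.X ^ k * PowerSeries.map (Int.castRingHom ℂ) T := by
    rw [hS]
    conv_lhs => rw [hser']
    rw [RingHom.map_add, RingHom.map_mul (PowerSeries.map (Int.castRingHom ℂ))
      (PowerSeries.X ^ k) T, RingHom.map_pow, PowerSeries.map_C, PowerSeries.map_X]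
    rfl
  have hFk : PowerSeries.coeff k F = ((PowerSeries.coeff 0 ser : ℤ) : ℂ) * PowerSeries.coeff k G +
      ((PowerSeries.coeff k ser : ℤ) : ℂ) * PowerSeries.coeff 0 G := by
    rw [hFG, hS', add_mul, map_add, PowerSeries.coeff_C_mul, mul_assoc,
      PowerSeries.coeff_X_pow_mul', if_pos le_rfl, Nat.sub_self]
    congr 1
    rw [PowerSeries.coeff_zero_eq_constantCoeff_apply, map_mul,
      ← PowerSeries.coeff_zero_eq_constantCoeff_apply,
      ← PowerSeries.coeff_zero_eq_constantCoeff_apply, PowerSeries.coeff_map, hT0]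
    rfl
  have hs0 : ‖((PowerSeries.coeff 0 ser : ℤ) : ℂ)‖ = 1 := by
    have h1 : PowerSeries.coeff 0 F = ((PowerSeries.coeff 0 ser : ℤ) : ℂ) *
        PowerSeries.coeff 0 G := by
      rw [hFG, PowerSeries.coeff_zero_eq_constantCoeff_apply, map_mul,
        ← PowerSeries.coeff_zero_eq_constantCoeff_apply,
        ← PowerSeries.coeff_zero_eq_constantCoeff_apply, hS, PowerSeries.coeff_map]
      rfl
    have h2 := congrArg norm h1
    rw [norm_mul, hF0, hG0] at h2
    have h3 : (0 : ℝ) < M⁻¹ := inv_pos.mpr hMpos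
    exact (mul_right_cancel₀ h3.ne' (by rw [one_mul]; exact h2)).symm
  have hsk : 1 ≤ ‖((PowerSeries.coeff k ser : ℤ) : ℂ)‖ := by
    rw [Complex.norm_intCast]
    exact_mod_cast Int.one_le_abs hkne
  have hSF := schur F k hkpos (hcF k) (by rw [hF0]; exact hMinv)
  have hSG := schur G k hkpos (hcG k) (by rw [hG0]; exact hMinv)
  rw [hF0] at hSF
  rw [hG0] at hSG
  have hkey : M⁻¹ ≤ 2 * (1 - M⁻¹ ^ 2) := by
    have h1 : ((PowerSeries.coeff k ser : ℤ) : ℂ) * PowerSeries.coeff 0 G =
        PowerSeries.coeff k F - ((PowerSeries.coeff 0 ser : ℤ) : ℂ) * PowerSeries.coeff k G := by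
      rw [hFk]; ring
    have h2 := congrArg norm h1
    rw [norm_mul, hG0] at h2
    have h3 := norm_sub_le (PowerSeries.coeff k F)
      (((PowerSeries.coeff 0 ser : ℤ) : ℂ) * PowerSeries.coeff k G)
    rw [norm_mul, hs0, one_mul, ← h2] at h3
    have h4 : M⁻¹ ≤ ‖((PowerSeries.coeff k ser : ℤ) : ℂ)‖ * M⁻¹ :=
      le_mul_of_one_le_left (inv_pos.mpr hMpos).le hsk
    linarith
  have h5 : M⁻¹ * M ^ 2 = M := by field_simp
  have h6 : M⁻¹ ^ 2 * M ^ 2 = 1 := by field_simp
  nlinarith [mul_le_mul_of_nonneg_right hkey (sq_nonneg M)]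

end Pool.Agent.MZ54.Schur
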