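import Pool.Agent.DOB.Frob48
import Pool.Agent.MZ54.AuxEx

/-! MP_3149b0: the main contradiction of the Dobrowolski argument. -/

namespace Pool.Agent.MZ54

open Polynomial

/-- **main step**: if the `p`-th powers of the roots (`p > k` prime) are pairwise distinct,
then the Mahler measure of `f` is not too small. -/
theorem main_step (f : ℤ[X]) (hf : f.Monic) (hirr : Irreducible f) (k : ℕ) (hk : 5 ≤ k)
    (hD : f.natDegree ≤ k ^ k) (s : ℕ) (S : Finset ℕ)
    (hSp : ∀ p ∈ S, 1 ≤ p ∧ p ≤ s ∧ p.Prime ∧ k < p)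
    (hS : (8 * k + 3) * (8 * k) ≤ S.card)
    (hdist : ∀ p ∈ S, ∀ q ∈ S, ∀ a ∈ (cpx f).roots,
      ∀ a' ∈ (cpx f).roots, a ^ p = a' ^ q → p = q ∧ a = a') :
    2 * (k : ℝ) * Real.log k
      ≤ (s : ℝ) * (((8 * k + 3) * (8 * k) : ℕ) : ℝ) * Real.log (cpx f).mahlerMeasure := by
  classical
  by_contra hcon
  push Not at hcon
  set u := 8 * k with hu
  have hu40 : 40 ≤ u := by omega
  have hk' : (5 : ℝ) ≤ k := by exact_mod_cast hk
  have hk0 : (0 : ℝ) < k := by linarith
  have hlk : 1 ≤ Real.log k := by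
    rw [Real.le_log_iff_exp_le hk0]
    have := Real.exp_one_lt_d9
    linarith
  have hlk2 : Real.log k ≤ k := by
    have := Real.log_le_sub_one_of_pos hk0
    linarith
  have hD1 : 1 ≤ f.natDegree := by
    rcases Nat.eq_zero_or_pos f.natDegree with h | h
    · exact absurd (hf.natDegree_eq_zero.mp h) hirr.ne_one
    · exact h
  set D := f.natDegree with hDdef
  set M := (cpx f).mahlerMeasure with hMdef
  have hM1 : 1 ≤ M := by
    have h1 : M = ((cpx f).roots.map (fun b => max 1 ‖b‖)).prod := DOB48.mahler_toC hf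
    rw [h1]
    exact one_le_prod_max_one_norm_roots _
  have hM0 : 0 < M := by linarith
  set l := Real.log M with hl
  have hl0 : 0 ≤ l := Real.log_nonneg hM1
  set W := (u + 3) * u with hW
  have hW1 : 1 ≤ W := by
    have : 0 < W := by positivity
    exact this
  have hW1' : (1 : ℝ) ≤ (W : ℝ) := by exact_mod_cast hW1
  -- s is large
  have hsW : W ≤ s := by
    refine hS.trans ?_
    calc S.card ≤ (Finset.Icc 1 s).card := by
          apply Finset.card_le_card
          intro p hp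
          obtain ⟨h1, h2, -, -⟩ := hSp p hp
          exact Finset.mem_Icc.mpr ⟨h1, h2⟩
      _ = s := by rw [Nat.card_Icc]; rfl
  have hsW' : (W : ℝ) ≤ s := by exact_mod_cast hsW
  have hWk : 2 * (k : ℝ) * Real.log k ≤ (W : ℝ) := by
    have h1 : 2 * (k : ℝ) * Real.log k ≤ 2 * (k : ℝ) * k := by gcongr
    have h2 : (W : ℝ) = (8 * (k : ℝ) + 3) * (8 * k) := by rw [hW, hu]; push_cast; ring
    rw [h2]
    nlinarith
  have hWl : (W : ℝ) * l ≤ 1 := by
    by_contra h
    push Not at h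
    have h1 : (s : ℝ) * 1 ≤ (s : ℝ) * ((W : ℝ) * l) := by gcongr
    have h2 : (s : ℝ) * (W : ℝ) * l = (s : ℝ) * ((W : ℝ) * l) := by ring
    rw [h2] at hcon
    linarith
  have hMW : M ^ W ≤ 3 := by
    have h1 : M ^ W = Real.exp ((W : ℝ) * l) := by
      rw [hl, ← Real.log_pow, Real.exp_log (by positivity)]
    rw [h1]
    have h2 : Real.exp ((W : ℝ) * l) ≤ Real.exp 1 := Real.exp_le_exp.mpr hWl
    have h3 := Real.exp_one_lt_d9
    linarith
  obtain ⟨A, hA0, hAd, hAc, hAf⟩ := aux_exists f hf hirr k hk hMW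
  set N := W * D with hN
  have hN1 : 1 ≤ N := Nat.one_le_iff_ne_zero.mpr (by positivity)
  have hNk : N ≤ k ^ (2 * k) := by
    have h1 : W ≤ k ^ k := by
      calc W ≤ 125 * k ^ 2 := by rw [hW, hu]; nlinarith
        _ ≤ k ^ 3 * k ^ 2 := by
            gcongr
            calc 125 = 5 ^ 3 := by norm_num
              _ ≤ k ^ 3 := Nat.pow_le_pow_left hk 3
        _ = k ^ 5 := by ring
        _ ≤ k ^ k := Nat.pow_le_pow_right (by omega) hk
    calc N = W * D := rfl
      _ ≤ k ^ k * k ^ k := Nat.mul_le_mul h1 hD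
      _ = k ^ (2 * k) := by rw [two_mul, pow_add]
  set H := N ^ 2 - 1 with hH
  have hN2 : 1 ≤ N ^ 2 := Nat.one_le_pow _ _ hN1
  have hAc' : ∀ i, |A.coeff i| ≤ (H : ℤ) := by
    intro i
    refine (hAc i).trans (le_of_eq ?_)
    rw [hH, Nat.cast_sub hN2]
    push_cast
    ring
  have hHN : (H : ℝ) * N ≤ ((k : ℝ) ^ (6 * k)) := by
    have h1 : H * N ≤ k ^ (6 * k) := by
      calc H * N ≤ N ^ 2 * N := by gcongr; omega
        _ = N ^ 3 := by ring
        _ ≤ (k ^ (2 * k)) ^ 3 := Nat.pow_le_pow_left hNk 3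
        _ = k ^ (6 * k) := by rw [← pow_mul]; congr 1; ring
    exact_mod_cast h1
  have hzero : ∀ p ∈ S, ∀ b ∈ (cpx f).roots, (cpx A).eval (b ^ p) = 0 := by
    intro p hp
    obtain ⟨hp1, hps, hpp, hkp⟩ := hSp p hp
    have hps' : (p : ℝ) ≤ s := by exact_mod_cast hps
    have hkp' : (k : ℝ) < p := by exact_mod_cast hkp
    apply DOB48.frob_zero hf hirr hpp hAd hAc' hAf
    -- size
    have h1 : (DOB48.toC f).mahlerMeasure ^ (p * N) < ((k : ℝ) ^ (2 * k)) ^ D := by
      have h2 : (DOB48.toC f).mahlerMeasure ^ (p * N) = Real.exp (((p : ℝ) * (W : ℝ) * l) * D) := by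
        change M ^ (p * N) = _
        have h3 : ((p : ℝ) * (W : ℝ) * l) * D = ((p * N : ℕ) : ℝ) * l := by
          rw [hN]; push_cast; ring
        rw [h3, hl, ← Real.log_pow, Real.exp_log (by positivity)]
      have h4 : ((k : ℝ) ^ (2 * k)) ^ D = Real.exp ((2 * (k : ℝ) * Real.log k) * D) := by
        have h5 : (2 * (k : ℝ) * Real.log k) * D = ((2 * k * D : ℕ) : ℝ) * Real.log k := by
          push_cast; ring
        rw [h5, ← Real.log_pow, Real.exp_log (by positivity), ← pow_mul]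
      rw [h2, h4]
      apply Real.exp_lt_exp.mpr
      have hDpos : (0 : ℝ) < D := by exact_mod_cast hD1
      apply mul_lt_mul_of_pos_right _ hDpos
      calc (p : ℝ) * (W : ℝ) * l ≤ (s : ℝ) * (W : ℝ) * l := by gcongr
        _ < 2 * (k : ℝ) * Real.log k := hcon
    have hkpos : (0 : ℝ) < (k : ℝ) ^ (6 * k) := by positivity
    calc ((H : ℝ) * N) ^ D * (DOB48.toC f).mahlerMeasure ^ (p * N)
        ≤ ((k : ℝ) ^ (6 * k)) ^ D * (DOB48.toC f).mahlerMeasure ^ (p * N) := by
          have := mahlerMeasure_nonneg (DOB48.toC f)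
          gcongr
      _ < ((k : ℝ) ^ (6 * k)) ^ D * ((k : ℝ) ^ (2 * k)) ^ D := by
          gcongr
      _ = (k : ℝ) ^ (u * D) := by
          rw [← mul_pow, ← pow_add, ← pow_mul]
          congr 1
          rw [hu]
          ring
      _ ≤ (p : ℝ) ^ (u * D) := by gcongr
  -- count
  have hnd := DOB48.roots_nodup hf hirr
  set T : Finset ℂ := ⟨(cpx f).roots, hnd⟩ with hT
  have hTcard : T.card = D := DOB48.card_roots_toC hf
  have hinj : Set.InjOn (fun x : ℕ × ℂ => x.2 ^ x.1) (S ×ˢ T : Finset (ℕ × ℂ)) := by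
    rintro ⟨p, a⟩ hpa ⟨q, a'⟩ hqa h
    rw [Finset.mem_coe, Finset.mem_product] at hpa hqa
    obtain ⟨h1, h2⟩ := hdist p hpa.1 q hqa.1 a hpa.2 a' hqa.2 h
    rw [h1, h2]
  have himg : ((S ×ˢ T).image (fun x : ℕ × ℂ => x.2 ^ x.1)).card = S.card * D := by
    rw [Finset.card_image_of_injOn hinj, Finset.card_product, hTcard]
  have hAC : cpx A ≠ 0 := (Polynomial.map_ne_zero_iff Int.cast_injective).mpr hA0
  have hsub : (S ×ˢ T).image (fun x : ℕ × ℂ => x.2 ^ x.1) ⊆ (cpx A).roots.toFinset := by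
    intro y hy
    rw [Finset.mem_image] at hy
    obtain ⟨⟨p, a⟩, hpa, rfl⟩ := hy
    rw [Finset.mem_product] at hpa
    rw [Multiset.mem_toFinset, mem_roots hAC]
    exact hzero p hpa.1 a hpa.2
  have hle : S.card * D ≤ A.natDegree := by
    rw [← himg]
    calc ((S ×ˢ T).image (fun x : ℕ × ℂ => x.2 ^ x.1)).card
        ≤ (cpx A).roots.toFinset.card := Finset.card_le_card hsub
      _ ≤ Multiset.card (cpx A).roots := Multiset.toFinset_card_le _
      _ ≤ (cpx A).natDegree := card_roots' _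
      _ ≤ A.natDegree := natDegree_map_le
  have hbig : N ≤ S.card * D := Nat.mul_le_mul_right D hS
  omega

end Pool.Agent.MZ54
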